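import Pool.Agent.H378R2.LSBV7
import Pool.Agent.H378R2.M1

/-! The relative Bombieri-Vinogradov theorem of `H378R2` with general weights. -/

open Finset Filter Topology

namespace Pool.Agent.L5helper11.IS

open Pool.Agent.H378R2 Pool.Agent.H378R2.LSBV Pool.Agent.Helper112 Pool.Agent.H398R2.BV

theorem exists_ps2 (Z fs : ℕ) (h : fs = 0 ∨ primorial Z < fs) :
    ∃ ps, GoodP Z ps ∧ (ps = 1 ∨ ps ≤ fs) ∧
      ∀ f, 1 < f → Squarefree f → f.Coprime ps → f ≠ fs := by
  by_cases hc : Squarefree fs ∧ 1 < fs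
  · obtain ⟨hsq, h1⟩ := hc
    have h2 : primorial Z < fs := by
      rcases h with h | h
      · omega
      · exact h
    have h3 : ∃ p, p.Prime ∧ p ∣ fs ∧ Z < p := by
      by_contra hcon
      push Not at hcon
      have h4 : fs ∣ primorial Z := by
        rw [← Nat.prod_primeFactors_of_squarefree hsq]
        unfold primorial
        apply prod_dvd_prod_of_subset
        intro p hp
        rw [mem_filter, mem_range]
        have hp' := Nat.prime_of_mem_primeFactors hp
        have := hcon p hp' (Nat.dvd_of_mem_primeFactors hp)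
        exact ⟨by omega, hp'⟩
      have := Nat.le_of_dvd (primorial_pos Z) h4
      omega
    obtain ⟨p, hp, hpf, hpZ⟩ := h3
    refine ⟨p, Or.inr ⟨hp, hpZ⟩, Or.inr (Nat.le_of_dvd (by omega) hpf), fun f _ _ hcop hf => ?_⟩
    subst hf
    have := hcop.symm
    rw [Nat.Prime.coprime_iff_not_dvd hp] at this
    exact this hpf
  · refine ⟨1, Or.inl rfl, Or.inl rfl, fun f hf1 hf2 _ hf => ?_⟩
    subst hf
    exact hc ⟨hf2, hf1⟩

/-- the main sum over pairs for a good set `S`, with the weight `1/√b` -/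
theorem sum_pairs2 (X M L : ℝ) (ps R D Ω k F : ℕ) (P S : Finset ℕ)
    (hL : 1 ≤ L) (hM : 0 ≤ M) (hD : ∀ b : ℕ, D < b → L ^ (2 * k) ≤ b)
    (hF : primorial (yy X) * R ≤ F)
    (hall : ∑ f ∈ Icc 2 F, TT X f ≤ M * L ^ k)
    (hA : ∑ p ∈ (pairs X ps R S).filter (fun p => p.2 ≤ D ∧ (P ∩ p.1.primeFactors).card < Ω),
      TT X (p.1 * p.2) ≤ M)
    (hB : ∑ p ∈ pairB X ps R D Ω P S, TT X (p.1 * p.2) ≤ 3 * M) :
    ∑ p ∈ pairs X ps R S, (1 / Real.sqrt p.2) * TT X (p.1 * p.2) ≤ 5 * M := by
  have hmem : ∀ p ∈ pairs X ps R S, 1 ≤ p.2 := by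
    intro p hp
    unfold pairs at hp
    rw [mem_filter, mem_product, mem_QQ] at hp
    exact hp.1.2.1.1
  have hsmall : ∀ p ∈ pairs X ps R S, 1 / Real.sqrt p.2 ≤ 1 := by
    intro p hp
    have h1 := hmem p hp
    apply div_le_self zero_le_one
    rw [Real.one_le_sqrt]
    exact_mod_cast h1
  rw [← sum_filter_add_sum_filter_not (pairs X ps R S) (fun p => p.2 ≤ D)]
  have hC : ∑ p ∈ (pairs X ps R S).filter (fun p => ¬ p.2 ≤ D),
      (1 / Real.sqrt p.2) * TT X (p.1 * p.2) ≤ M := by
    have h1 : ∀ p ∈ (pairs X ps R S).filter (fun p => ¬ p.2 ≤ D),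
        (1 / Real.sqrt p.2) * TT X (p.1 * p.2) ≤ (1 / L ^ k) * TT X (p.1 * p.2) := by
      intro p hp
      rw [mem_filter] at hp
      apply mul_le_mul_of_nonneg_right _ (TT_nonneg X _)
      apply div_le_div_of_nonneg_left zero_le_one (by positivity)
      apply Real.le_sqrt_of_sq_le
      rw [← pow_mul, mul_comm]
      exact hD p.2 (by omega)
    refine (sum_le_sum h1).trans ?_
    rw [← mul_sum]
    have h2 : ∑ p ∈ (pairs X ps R S).filter (fun p => ¬ p.2 ≤ D), TT X (p.1 * p.2) ≤
        ∑ f ∈ Icc 2 F, TT X f := by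
      apply pair_inj (TT X) (TT_nonneg X) (WW X S ps) ps R
      · intro p hp
        rw [mem_filter] at hp
        unfold pairs at hp
        rw [mem_filter] at hp
        exact hp.1.1
      · intro p hp
        rw [mem_filter] at hp
        unfold pairs at hp
        rw [mem_filter, mem_product, Nat.mem_divisors, mem_QQ] at hp
        obtain ⟨⟨⟨⟨ha, _⟩, ⟨hb1, hb2⟩, hb3, hb4⟩, h5⟩, _⟩ := hp
        have ha0 : 0 < p.1 := Nat.pos_of_dvd_of_pos ha (WW_pos X S ps)
        have h6 : 0 < p.1 * p.2 := by positivity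
        rw [mem_Icc]
        refine ⟨by omega, le_trans ?_ hF⟩
        apply Nat.mul_le_mul _ hb2
        exact Nat.le_of_dvd (primorial_pos _) (ha.trans (WW_dvd_primorial X S ps))
    calc (1 / L ^ k) * ∑ p ∈ (pairs X ps R S).filter (fun p => ¬ p.2 ≤ D), TT X (p.1 * p.2) ≤
        (1 / L ^ k) * (M * L ^ k) :=
          mul_le_mul_of_nonneg_left (h2.trans hall) (by positivity)
      _ = M := by
          have : L ^ k ≠ 0 := by positivity
          field_simp
  have hAB : ∑ p ∈ (pairs X ps R S).filter (fun p => p.2 ≤ D),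
      (1 / Real.sqrt p.2) * TT X (p.1 * p.2) ≤ M + 3 * M := by
    calc _ ≤ ∑ p ∈ (pairs X ps R S).filter (fun p => p.2 ≤ D), TT X (p.1 * p.2) := by
          apply sum_le_sum
          intro p hp
          rw [mem_filter] at hp
          calc _ ≤ 1 * TT X (p.1 * p.2) :=
                mul_le_mul_of_nonneg_right (hsmall p hp.1) (TT_nonneg X _)
            _ = _ := one_mul _
      _ ≤ _ := by
          rw [← sum_filter_add_sum_filter_not _
            (fun p : ℕ × ℕ => (P ∩ p.1.primeFactors).card < Ω), filter_filter, filter_filter]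
          apply add_le_add hA
          refine le_trans (le_of_eq ?_) hB
          apply sum_congr _ (fun _ _ => rfl)
          unfold pairs pairB
          rw [filter_filter]
          ext p
          rw [mem_filter, mem_filter]
          constructor
          · rintro ⟨h1, h2, h3, h4⟩
            exact ⟨h1, h2, h3, by omega⟩
          · rintro ⟨h1, h2, h3, h4⟩
            exact ⟨h1, h2, h3, by omega⟩
  linarith

/-- exchange of the summations for a family of moduli -/
theorem swap2 (ι : Type) (I : Finset ι) (f : ι → ℝ) (q : ι → ℕ) (K : ℝ) (T : ℕ → ℝ)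
    (hT : ∀ f, 0 ≤ T f) (W ps R : ℕ) (hW : 1 ≤ W)
    (hq : ∀ i ∈ I, q i ∈ QQ W ps R)
    (hK : ∀ d : ℕ, 1 ≤ d → ∑ i ∈ I.filter (fun i => d ∣ q i), |f i| / (Nat.totient (q i) : ℝ) ≤
      K / Real.sqrt d) :
    ∑ i ∈ I, |f i| * ((1 / (Nat.totient (W * q i) : ℝ)) *
      ∑ f ∈ (W * q i).divisors.filter (fun f => f ≠ 1), T f) ≤
    (1 / (Nat.totient W : ℝ)) * (K *
      ∑ p ∈ (W.divisors ×ˢ QQ W ps R).filter (fun p => p.1 * p.2 ≠ 1),
        (1 / Real.sqrt p.2) * T (p.1 * p.2)) := by
  have e1 : ∀ i ∈ I, |f i| * ((1 / (Nat.totient (W * q i) : ℝ)) *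
      ∑ f ∈ (W * q i).divisors.filter (fun f => f ≠ 1), T f) =
      ∑ p ∈ (W.divisors ×ˢ QQ W ps R).filter (fun p => p.1 * p.2 ≠ 1),
        if p.2 ∣ q i then (1 / (Nat.totient W : ℝ)) *
          (|f i| / (Nat.totient (q i) : ℝ) * T (p.1 * p.2)) else 0 := by
    intro i hi
    have hqi := hq i hi
    rw [mem_QQ] at hqi
    obtain ⟨⟨hq1, hq2⟩, hqs, hqc⟩ := hqi
    have hc : W.Coprime (q i) := (Nat.Coprime.coprime_mul_right_right hqc).symm
    rw [sum_divisors_coprime T W (q i) hW hq1 hc, Nat.totient_mul hc]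
    rw [← sum_filter, filter_filter, mul_sum, mul_sum]
    apply sum_congr
    · ext p
      rw [mem_filter, mem_filter, mem_product, mem_product, Nat.mem_divisors, Nat.mem_divisors,
        mem_QQ]
      constructor
      · rintro ⟨⟨⟨h1, h2⟩, h3, h4⟩, h5⟩
        refine ⟨⟨⟨h1, h2⟩, ⟨⟨Nat.pos_of_dvd_of_pos h3 hq1, (Nat.le_of_dvd hq1 h3).trans hq2⟩,
          hqs.squarefree_of_dvd h3, hqc.coprime_dvd_left h3⟩⟩, h5, h3⟩
      · rintro ⟨⟨⟨h1, h2⟩, _⟩, h5, h3⟩
        exact ⟨⟨⟨h1, h2⟩, h3, by omega⟩, h5⟩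
    · intro p _
      push_cast
      have hφ : (Nat.totient (q i) : ℝ) ≠ 0 := by
        have := Nat.totient_pos.mpr hq1
        positivity
      have hφ' : (Nat.totient W : ℝ) ≠ 0 := by
        have := Nat.totient_pos.mpr hW
        positivity
      field_simp
  rw [sum_congr rfl e1, sum_comm, mul_sum, mul_sum]
  apply sum_le_sum
  intro p hp
  rw [mem_filter, mem_product, mem_QQ] at hp
  rw [← sum_filter, ← mul_sum, ← sum_mul]
  apply mul_le_mul_of_nonneg_left _ (by positivity)
  have h2 := hK p.2 hp.1.2.1.1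
  calc _ ≤ (K / Real.sqrt p.2) * T (p.1 * p.2) :=
        mul_le_mul_of_nonneg_right h2 (hT _)
    _ = _ := by ring

/-- the relative Bombieri-Vinogradov theorem with general weights -/
theorem bvw (A Z : ℕ) : ∃ X0 : ℝ, ∀ X : ℝ, X0 ≤ X →
    ∃ (ps : ℕ) (S : Finset ℕ), GoodP Z ps ∧ GoodS X S ∧
      (ps : ℝ) ≤ Real.exp ((Real.log (Real.log X)) ^ 6) ∧
      ∀ (ι : Type) [Fintype ι] (f : ι → ℝ) (q b : ι → ℕ) (K : ℝ), 0 ≤ K →
        (∀ i, f i ≠ 0 → 1 ≤ q i ∧ (q i : ℝ) ≤ X ^ (1 / 100 : ℝ) ∧ Squarefree (q i) ∧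
          (q i).Coprime (WW X S ps * ps) ∧ (b i).Coprime (WW X S ps * q i)) →
        (∀ d : ℕ, 1 ≤ d → ∑ i with d ∣ q i, |f i| / (Nat.totient (q i) : ℝ) ≤ K / Real.sqrt d) →
        ∑ i, |f i| * |EPhi X (WW X S ps * q i) (b i)| ≤
          X / (Nat.totient (WW X S ps) : ℝ) * (K / (Real.log X) ^ A) := by
  classical
  set N := A + 2 with hN
  set k := N + 8 with hk
  obtain ⟨C0, X1, hls⟩ := ls_sum
  set C1 := max C0 1 with hC1
  have hC1p : 1 ≤ C1 := le_max_right _ _
  obtain ⟨X2, hX2⟩ := small_conductor (primorial Z)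
  have hlog : Tendsto Real.log atTop atTop := Real.tendsto_log_atTop
  have hloglog : Tendsto (fun X : ℝ => Real.log (Real.log X)) atTop atTop := hlog.comp hlog
  have ev : ∀ᶠ X : ℝ in atTop, ∃ (ps : ℕ) (S : Finset ℕ), GoodP Z ps ∧ GoodS X S ∧
      (ps : ℝ) ≤ Real.exp ((Real.log (Real.log X)) ^ 6) ∧
      ∀ (ι : Type) [Fintype ι] (f : ι → ℝ) (q b : ι → ℕ) (K : ℝ), 0 ≤ K →
        (∀ i, f i ≠ 0 → 1 ≤ q i ∧ (q i : ℝ) ≤ X ^ (1 / 100 : ℝ) ∧ Squarefree (q i) ∧
          (q i).Coprime (WW X S ps * ps) ∧ (b i).Coprime (WW X S ps * q i)) →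
        (∀ d : ℕ, 1 ≤ d → ∑ i with d ∣ q i, |f i| / (Nat.totient (q i) : ℝ) ≤ K / Real.sqrt d) →
        ∑ i, |f i| * |EPhi X (WW X S ps * q i) (b i)| ≤
          X / (Nat.totient (WW X S ps) : ℝ) * (K / (Real.log X) ^ A) := by
    filter_upwards [eventually_ge_atTop X1, eventually_ge_atTop X2, eventually_ge_atTop (4:ℝ),
      hloglog.eventually_ge_atTop (6 * k + 20 : ℝ),
      hlog.eventually_ge_atTop (10 * C1),
      ev_log 16 (A + 2) (1 / 2) (by norm_num)] with X h1 h2 h3 h4 h5 h6
    have hX0 : 0 < X := by linarith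
    have hX1 : 1 ≤ X := by linarith
    have hL1 : 1 ≤ Real.log X := by
      rw [Real.le_log_iff_exp_le hX0]
      have := Real.exp_one_lt_d9
      linarith
    set L := Real.log X with hL
    set l := Real.log L with hl
    have hL0 : 0 < L := by linarith
    have hl20 : 20 ≤ l := by
      have : (0:ℝ) ≤ k := by positivity
      linarith
    have hexpl : Real.exp l = L := Real.exp_log hL0
    have hkr : (0:ℝ) ≤ k := by positivity
    -- exceptional prime
    obtain ⟨fs, hfs, hsc⟩ := hX2 X h2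
    have hps0 : ∃ ps, GoodP Z ps ∧ (ps : ℝ) ≤ Real.exp (l ^ 6) ∧
        ∀ f : ℕ, 1 < f → Squarefree f → (f : ℝ) ≤ Real.exp (l ^ 6) → f.Coprime ps → f ≠ fs := by
      have h1e : (1:ℝ) ≤ Real.exp (l ^ 6) := Real.one_le_exp (by positivity)
      by_cases hb : (fs : ℝ) ≤ Real.exp (l ^ 6)
      · obtain ⟨ps, hps, hpsb, hps2⟩ := exists_ps2 Z fs hfs
        refine ⟨ps, hps, ?_, fun f hf1 hf2 _ hf4 => hps2 f hf1 hf2 hf4⟩
        rcases hpsb with h | h
        · rw [h]; simpa using h1e
        · exact le_trans (by exact_mod_cast h) hb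
      · refine ⟨1, Or.inl rfl, by simpa using h1e, fun f _ _ hf3 _ hf => ?_⟩
        subst hf
        exact hb hf3
    obtain ⟨ps, hps, hpsb, hps2⟩ := hps0
    have hsc' : ∀ f : ℕ, Squarefree f → 1 < f → (f : ℝ) ≤ Real.exp (l ^ 6) → f.Coprime ps →
        ∀ χ : DirichletCharacter ℂ f, χ.IsPrimitive →
          ‖psiPhi χ X‖ ≤ X * Real.exp (-l ^ 7) := by
      intro f hf1 hf2 hf3 hf4
      exact hsc f hf1 hf2 hf3 (hps2 f hf2 hf1 hf3 hf4)
    -- parameters
    set R := ⌊X ^ (1 / 100 : ℝ)⌋₊ with hR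
    set F := ⌊X ^ (1 / 50 : ℝ)⌋₊ with hF
    set D := ⌊L ^ (2 * k)⌋₊ with hD
    set Ω := ⌈(3 * k : ℕ) * l ^ 4⌉₊ with hΩ
    set κ := 1 / l ^ 3 with hκ
    set P := (Icc 1 (yy X)).filter (fun p => p.Prime ∧ z2 X < p) with hP
    set M := C1 * X / L ^ N with hM
    have hM0 : 0 < M := by positivity
    have hl3 : (1:ℝ) ≤ l ^ 3 := one_le_pow₀ (by linarith)
    have hκ0 : 0 ≤ κ := by positivity
    have hκ1 : κ ≤ 1 := by
      rw [hκ, div_le_one (by positivity)]
      exact hl3
    have hRle : (R : ℝ) ≤ X ^ (1 / 100 : ℝ) := Nat.floor_le (by positivity)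
    have hVR : ((primorial (yy X) * R : ℕ) : ℝ) ≤ X ^ (1 / 50 : ℝ) := by
      push_cast
      calc (primorial (yy X) : ℝ) * R ≤ X ^ (1 / 500 : ℝ) * X ^ (1 / 100 : ℝ) :=
            mul_le_mul (primorial_yy_le X hX1) hRle (by positivity) (by positivity)
        _ = X ^ (1 / 500 + 1 / 100 : ℝ) := by rw [Real.rpow_add hX0]
        _ ≤ _ := Real.rpow_le_rpow_of_exponent_le hX1 (by norm_num)
    have hFle : primorial (yy X) * R ≤ F := Nat.le_floor hVR
    have hall : ∑ f ∈ Icc 2 F, TT X f ≤ M * L ^ k := by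
      have h7 := hls X h1
      have h8 : ∑ f ∈ Icc 2 F, TT X f ≤ C0 * X * L ^ 8 := h7
      refine h8.trans ?_
      have hLk : L ^ k = L ^ N * L ^ 8 := by rw [hk, pow_add]
      have hLN0 : L ^ N ≠ 0 := by positivity
      have : M * L ^ k = C1 * X * L ^ 8 := by
        rw [hM, hLk]
        field_simp
      rw [this]
      have : C0 ≤ C1 := le_max_left _ _
      gcongr
    have hyL : (yy X : ℝ) ≤ L := by
      have : (yy X : ℝ) ≤ L / 1000 := Nat.floor_le (by positivity)
      linarith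
    -- random set
    have hE1 : ∑ S ∈ P.powerset, ww P κ S * ∑ q ∈ S, (1:ℝ) / q ≤ 2 / l ^ 2 := by
      rw [sum_ww_inv]
      have h7 : ∑ q ∈ P, (1:ℝ) / q ≤ 1 + l := by
        calc ∑ q ∈ P, (1:ℝ) / q ≤ ∑ q ∈ Icc 1 (yy X), (1:ℝ) / q := by
              apply sum_le_sum_of_subset_of_nonneg (filter_subset _ _)
              intro i _ _
              positivity
          _ ≤ 1 + Real.log (yy X) := harm_le' _
          _ ≤ 1 + l := by
              rcases Nat.eq_zero_or_pos (yy X) with h | h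
              · rw [h]; simp; linarith
              · have : Real.log (yy X) ≤ l :=
                  Real.log_le_log (by exact_mod_cast h) hyL
                linarith
      calc κ * ∑ q ∈ P, (1:ℝ) / q ≤ κ * (1 + l) := mul_le_mul_of_nonneg_left h7 hκ0
        _ ≤ κ * (2 * l) := mul_le_mul_of_nonneg_left (by linarith) hκ0
        _ = 2 / l ^ 2 := by
            rw [hκ]
            have : l ≠ 0 := by linarith
            field_simp
    have hE2 : ∑ S ∈ P.powerset, ww P κ S * ∑ p ∈ pairB X ps R D Ω P S, TT X (p.1 * p.2) ≤ M := by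
      refine (caseB (TT X) (TT_nonneg X) X ps R D Ω F P κ hκ0 hκ1 hFle).trans ?_
      have h7 : (1 - κ) ^ Ω ≤ Real.exp (-((3 * k : ℕ) * l)) := by
        apply pow_le_exp κ l (3 * k) Ω hκ1
        have h8 : ((3 * k : ℕ) : ℝ) * l ^ 4 ≤ Ω := Nat.le_ceil _
        calc ((3 * k : ℕ) : ℝ) * l = κ * (((3 * k : ℕ) : ℝ) * l ^ 4) := by
              rw [hκ]
              have : l ≠ 0 := by linarith
              field_simp
          _ ≤ κ * Ω := mul_le_mul_of_nonneg_left h8 hκ0
      have h8 : Real.exp (-((3 * k : ℕ) * l)) = 1 / L ^ (3 * k) := by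
        rw [Real.exp_neg, Real.exp_nat_mul, hexpl, one_div]
      rw [h8] at h7
      have hDle : (D:ℝ) ≤ L ^ (2 * k) := Nat.floor_le (by positivity)
      have hT0 : 0 ≤ ∑ f ∈ Icc 2 F, TT X f := sum_nonneg fun f _ => TT_nonneg X f
      calc (1 - κ) ^ Ω * (D * ∑ f ∈ Icc 2 F, TT X f) ≤
          (1 / L ^ (3 * k)) * (L ^ (2 * k) * (M * L ^ k)) := by
            apply mul_le_mul h7 _ (by positivity) (by positivity)
            exact mul_le_mul hDle hall hT0 (by positivity)
        _ = M * ((L ^ (2 * k) * L ^ k) / L ^ (3 * k)) := by ring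
        _ = M := by
            rw [← pow_add, show 2 * k + k = 3 * k by ring, div_self (by positivity), mul_one]
    obtain ⟨S, hSP, hS1, hS2⟩ := exists_good P κ hκ0 hκ1 (fun S => ∑ q ∈ S, (1:ℝ) / q)
      (fun S => ∑ p ∈ pairB X ps R D Ω P S, TT X (p.1 * p.2))
      (fun S => sum_nonneg fun _ _ => by positivity)
      (fun S => sum_nonneg fun _ _ => TT_nonneg X _) (2 / l ^ 2) M (by positivity) hM0 hE1 hE2
    refine ⟨ps, S, hps, ⟨?_, ?_⟩, hpsb, ?_⟩
    · intro q hq
      have := hSP hq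
      rw [hP, mem_filter, mem_Icc] at this
      exact ⟨this.2.1, this.2.2, this.1.2⟩
    · calc ∑ q ∈ S, (1:ℝ) / q ≤ 3 * (2 / l ^ 2) := hS1
        _ = 6 / l ^ 2 := by ring
    intro ι _ f q b K hK0 hfq hK
    set W := WW X S ps with hW
    have hW1 : 1 ≤ W := WW_pos X S ps
    have hWV : W ≤ primorial (yy X) :=
      Nat.le_of_dvd (primorial_pos _) (WW_dvd_primorial X S ps)
    have hWX : (W:ℝ) ≤ X ^ (1 / 500 : ℝ) :=
      le_trans (by exact_mod_cast hWV) (primorial_yy_le X hX1)
    have hφW : (0:ℝ) < Nat.totient W := by exact_mod_cast Nat.totient_pos.mpr hW1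
    -- case A
    have hsize : ∀ p ∈ pairs X ps R S, p.2 ≤ D → (P ∩ p.1.primeFactors).card < Ω →
        ((p.1 * p.2 : ℕ) : ℝ) ≤ Real.exp (l ^ 6) := by
      intro p hp hpD hpΩ
      unfold pairs at hp
      rw [mem_filter, mem_product, Nat.mem_divisors] at hp
      have h7 := size_caseA X ps Ω S p.1 hp.1.1.1 hpΩ L hL1 hyL
      have h8 : (p.2 : ℝ) ≤ L ^ (2 * k) :=
        le_trans (by exact_mod_cast hpD) (Nat.floor_le (by positivity))
      have hz : (z2 X : ℝ) ≤ l ^ 3 + 1 := (Nat.ceil_lt_add_one (by positivity)).le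
      have hΩle : (Ω : ℝ) ≤ (3 * k : ℕ) * l ^ 4 + 1 := (Nat.ceil_lt_add_one (by positivity)).le
      have h4e : (4:ℝ) ≤ Real.exp 2 := by
        have h := Real.exp_one_gt_d9
        have : Real.exp 2 = Real.exp 1 * Real.exp 1 := by rw [← Real.exp_add]; norm_num
        rw [this]
        nlinarith
      push_cast
      calc (p.1 : ℝ) * p.2 ≤ (4 ^ (z2 X) * L ^ Ω) * L ^ (2 * k) :=
            mul_le_mul h7 h8 (by positivity) (by positivity)
        _ ≤ ((Real.exp 2) ^ (z2 X) * L ^ Ω) * L ^ (2 * k) := by gcongr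
        _ = Real.exp (2 * z2 X + Ω * l + (2 * k : ℕ) * l) := by
            rw [Real.exp_add, Real.exp_add, Real.exp_nat_mul, Real.exp_nat_mul, hexpl,
              ← Real.exp_nat_mul, mul_comm (2:ℝ) (z2 X : ℝ)]
        _ ≤ Real.exp (l ^ 6) := by
            apply Real.exp_le_exp.mpr
            have hp1 := poly1 l ((3 * k : ℕ) : ℝ) ((2 * k : ℕ) : ℝ) (by positivity) (by positivity)
              (by push_cast; linarith)
            have : (Ω : ℝ) * l ≤ l * ((3 * k : ℕ) * l ^ 4 + 1) := by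
              rw [mul_comm]
              exact mul_le_mul_of_nonneg_left hΩle (by linarith)
            linarith
    have hA : ∑ p ∈ (pairs X ps R S).filter (fun p => p.2 ≤ D ∧ (P ∩ p.1.primeFactors).card < Ω),
        TT X (p.1 * p.2) ≤ M := by
      refine (sum_pairsA X hX0.le ps R D Ω Z hps P S l hsize hsc').trans ?_
      have hp2 := poly2 l (N:ℝ) (by positivity) (by
        have : (N:ℝ) ≤ k := by rw [hk]; push_cast; linarith
        linarith)
      have h7 : Real.exp (2 * l ^ 6 - l ^ 7) ≤ 1 / L ^ N := by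
        have : 1 / L ^ N = Real.exp (-(N * l)) := by
          rw [Real.exp_neg, Real.exp_nat_mul, hexpl, one_div]
        rw [this]
        exact Real.exp_le_exp.mpr (by linarith)
      calc X * Real.exp (2 * l ^ 6 - l ^ 7) ≤ X * (1 / L ^ N) :=
            mul_le_mul_of_nonneg_left h7 hX0.le
        _ = 1 * X / L ^ N := by ring
        _ ≤ C1 * X / L ^ N := by gcongr
    have hmain := sum_pairs2 X M L ps R D Ω k F P S hL1 hM0.le
      (fun b hb => by
        have : L ^ (2 * k) < b := (Nat.floor_lt (by positivity)).mp hb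
        exact this.le) hFle hall hA hS2
    -- the set of relevant indices
    set I := (univ : Finset ι).filter (fun i => f i ≠ 0) with hI
    have hqI : ∀ i ∈ I, q i ∈ QQ W ps R := by
      intro i hi
      rw [hI, mem_filter] at hi
      obtain ⟨g1, g2, g3, g4, g5⟩ := hfq i hi.2
      rw [mem_QQ]
      exact ⟨⟨g1, Nat.le_floor g2⟩, g3, g4⟩
    have hKI : ∀ d : ℕ, 1 ≤ d →
        ∑ i ∈ I.filter (fun i => d ∣ q i), |f i| / (Nat.totient (q i) : ℝ) ≤
          K / Real.sqrt d := by
      intro d hd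
      refine le_trans ?_ (hK d hd)
      apply sum_le_sum_of_subset_of_nonneg
      · intro i hi
        rw [mem_filter] at hi ⊢
        exact ⟨mem_univ _, hi.2⟩
      · intro i _ _
        positivity
    have hred : ∑ i, |f i| * |EPhi X (W * q i) (b i)| =
        ∑ i ∈ I, |f i| * |EPhi X (W * q i) (b i)| := by
      rw [hI, sum_filter]
      apply sum_congr rfl
      intro i _
      split_ifs with h
      · rfl
      · have h0 : f i = 0 := not_not.mp h
        rw [h0]; simp
    rw [hred]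
    have s0 : ∑ i ∈ I, |f i| * |EPhi X (W * q i) (b i)| ≤
        ∑ i ∈ I, |f i| * ((1 / (Nat.totient (W * q i) : ℝ)) *
          ∑ f ∈ (W * q i).divisors.filter (fun f => f ≠ 1), TT X f) +
        ∑ i ∈ I, |f i| * (2 * ((W * q i).primeFactors.card * Real.log (3 * X))) := by
      rw [← sum_add_distrib]
      apply sum_le_sum
      intro i hi
      have hqi := hqI i hi
      rw [mem_QQ] at hqi
      rw [← mul_add]
      apply mul_le_mul_of_nonneg_left _ (abs_nonneg _)
      rw [hI, mem_filter] at hi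
      exact EPhi_le X hX1 (W * q i) (b i) (Nat.mul_pos hW1 hqi.1.1) (hfq i hi.2).2.2.2.2
    have s1 := swap2 ι I f q K (TT X) (TT_nonneg X) W ps R hW1 hqI hKI
    have s2 : (1 / (Nat.totient W : ℝ)) * (K *
      ∑ p ∈ (W.divisors ×ˢ QQ W ps R).filter (fun p => p.1 * p.2 ≠ 1),
        (1 / Real.sqrt p.2) * TT X (p.1 * p.2)) ≤
        (1 / 2) * (X / (Nat.totient W : ℝ) * (K / L ^ A)) := by
      calc _ ≤ (1 / (Nat.totient W : ℝ)) * (K * (5 * M)) := by
            apply mul_le_mul_of_nonneg_left _ (by positivity)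
            exact mul_le_mul_of_nonneg_left hmain hK0
        _ = (1 / 2) * (X / (Nat.totient W : ℝ) * (K / L ^ A)) * ((10 * C1) / L ^ 2) := by
            rw [hM, hN, pow_add]
            have g1 : L ^ A ≠ 0 := by positivity
            have g2 : L ^ 2 ≠ 0 := by positivity
            field_simp
            ring
        _ ≤ (1 / 2) * (X / (Nat.totient W : ℝ) * (K / L ^ A)) * 1 := by
            apply mul_le_mul_of_nonneg_left _ (by positivity)
            rw [div_le_one (by positivity)]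
            calc 10 * C1 ≤ L := h5
              _ ≤ L ^ 2 := by nlinarith
        _ = _ := mul_one _
    have s3 : ∑ i ∈ I, |f i| * (2 * ((W * q i).primeFactors.card * Real.log (3 * X))) ≤
        (1 / 2) * (X / (Nat.totient W : ℝ) * (K / L ^ A)) := by
      have t1 : ∀ i ∈ I, |f i| * (2 * ((W * q i).primeFactors.card * Real.log (3 * X))) ≤
          (|f i| / (Nat.totient (q i) : ℝ)) * (8 * L ^ 2 * X ^ (1 / 100 : ℝ)) := by
        intro i hi
        have hqi := hqI i hi
        rw [mem_QQ] at hqi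
        obtain ⟨⟨hq1, hq2⟩, _, _⟩ := hqi
        have hφq : (0:ℝ) < Nat.totient (q i) := by exact_mod_cast Nat.totient_pos.mpr hq1
        have u2 : ((W * q i).primeFactors.card : ℝ) ≤ 2 * L := by
          refine (omega_le_log (W * q i) (Nat.mul_pos hW1 hq1)).trans ?_
          have v1 : ((W * q i : ℕ) : ℝ) ≤ X := by
            calc ((W * q i : ℕ) : ℝ) ≤ ((primorial (yy X) * R : ℕ) : ℝ) := by
                  exact_mod_cast Nat.mul_le_mul hWV hq2
              _ ≤ X ^ (1 / 50 : ℝ) := hVR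
              _ ≤ X ^ (1:ℝ) := Real.rpow_le_rpow_of_exponent_le hX1 (by norm_num)
              _ = X := Real.rpow_one X
          have := log_natCast_le (W * q i) X hX1 v1
          linarith
        have u3 : Real.log (3 * X) ≤ 2 * L := by
          calc Real.log (3 * X) ≤ Real.log (X * X) :=
                Real.log_le_log (by positivity) (by nlinarith)
            _ = 2 * L := by rw [Real.log_mul hX0.ne' hX0.ne']; ring
        have u4 : 0 ≤ Real.log (3 * X) := Real.log_nonneg (by linarith)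
        have u5 : (Nat.totient (q i) : ℝ) ≤ X ^ (1 / 100 : ℝ) := by
          calc (Nat.totient (q i) : ℝ) ≤ q i := by exact_mod_cast Nat.totient_le _
            _ ≤ R := by exact_mod_cast hq2
            _ ≤ _ := hRle
        have u6 : |f i| = (|f i| / (Nat.totient (q i) : ℝ)) * (Nat.totient (q i) : ℝ) := by
          field_simp
        calc |f i| * (2 * ((W * q i).primeFactors.card * Real.log (3 * X))) ≤
            |f i| * (2 * ((2 * L) * (2 * L))) := by
              apply mul_le_mul_of_nonneg_left _ (abs_nonneg _)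
              apply mul_le_mul_of_nonneg_left _ (by norm_num)
              exact mul_le_mul u2 u3 u4 (by positivity)
          _ = (|f i| / (Nat.totient (q i) : ℝ)) * (8 * L ^ 2 * (Nat.totient (q i) : ℝ)) := by
              conv_lhs => rw [u6]
              ring
          _ ≤ _ := by
              apply mul_le_mul_of_nonneg_left _ (by positivity)
              apply mul_le_mul_of_nonneg_left u5 (by positivity)
      refine (sum_le_sum t1).trans ?_
      rw [← sum_mul]
      have t2 : ∑ i ∈ I, |f i| / (Nat.totient (q i) : ℝ) ≤ K := by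
        have h := hKI 1 le_rfl
        simp only [one_dvd, filter_true] at h
        simpa using h
      have t3 : (Nat.totient W : ℝ) ≤ X ^ (1 / 500 : ℝ) :=
        le_trans (by exact_mod_cast Nat.totient_le W) hWX
      have t4 : 16 * L ^ (A + 2) * (X ^ (1 / 100 : ℝ) * X ^ (1 / 500 : ℝ)) ≤ X := by
        calc _ ≤ X ^ (1 / 2 : ℝ) * X ^ (1 / 2 : ℝ) := by
              apply mul_le_mul h6 _ (by positivity) (by positivity)
              rw [← Real.rpow_add hX0]
              exact Real.rpow_le_rpow_of_exponent_le hX1 (by norm_num)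
          _ = X := by
              rw [← Real.rpow_add hX0]; norm_num
      calc (∑ i ∈ I, |f i| / (Nat.totient (q i) : ℝ)) * (8 * L ^ 2 * X ^ (1 / 100 : ℝ)) ≤
          K * (8 * L ^ 2 * X ^ (1 / 100 : ℝ)) :=
            mul_le_mul_of_nonneg_right t2 (by positivity)
        _ = (1 / 2) * ((K / L ^ A) * ((16 * L ^ (A + 2) * (X ^ (1 / 100 : ℝ) *
            (Nat.totient W : ℝ))) / (Nat.totient W : ℝ))) := by
            rw [pow_add]
            have g1 : L ^ A ≠ 0 := by positivity
            field_simp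
            ring
        _ ≤ (1 / 2) * ((K / L ^ A) * (X / (Nat.totient W : ℝ))) := by
            apply mul_le_mul_of_nonneg_left _ (by norm_num)
            apply mul_le_mul_of_nonneg_left _ (by positivity)
            apply div_le_div_of_nonneg_right _ hφW.le
            refine le_trans ?_ t4
            apply mul_le_mul_of_nonneg_left _ (by positivity)
            exact mul_le_mul_of_nonneg_left t3 (by positivity)
        _ = _ := by ring
    have hfin : ∑ i ∈ I, |f i| * |EPhi X (W * q i) (b i)| ≤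
        X / (Nat.totient W : ℝ) * (K / L ^ A) := by linarith
    exact hfin
  exact eventually_atTop.mp ev

end Pool.Agent.L5helper11.IS
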