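import Pool.Agent.H378R2.M7j

/-! Average number of survivors over the reduced classes modulo the big modulus. -/

open Finset Filter Topology

namespace Pool.Agent.L5helper11.IS

open Pool.Agent.H378R2
open Pool.Agent.Erdos456.Mert (PP)

/-- residues surviving with their translate -/
def sv (b : ℤ) (m : ℕ) : Finset ℕ :=
  (range m).filter (fun a => a.Coprime m ∧ Int.gcd ((a : ℤ) + b) (m : ℤ) = 1)

theorem mem_sv {b : ℤ} {m a : ℕ} :
    a ∈ sv b m ↔ a < m ∧ a.Coprime m ∧ Int.gcd ((a : ℤ) + b) (m : ℤ) = 1 := by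
  unfold sv
  rw [mem_filter, mem_range]

theorem mod_sv {b : ℤ} {m d a : ℕ} (hd : 0 < d) (hdm : d ∣ m) (h : a ∈ sv b m) :
    a % d ∈ sv b d := by
  rw [mem_sv] at h ⊢
  obtain ⟨_, h2, h3⟩ := h
  refine ⟨Nat.mod_lt _ hd, ?_, ?_⟩
  · have h4 : a.Coprime d := h2.coprime_dvd_right hdm
    have h5 := (Nat.mod_modEq a d).gcd_eq
    unfold Nat.Coprime at h4 ⊢
    rw [h5, h4]
  · have h3' : IsCoprime ((a:ℤ) + b) (m:ℤ) := Int.isCoprime_iff_gcd_eq_one.mpr h3
    have h4 : IsCoprime ((a:ℤ) + b) (d:ℤ) :=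
      h3'.of_isCoprime_of_dvd_right (Int.natCast_dvd_natCast.mpr hdm)
    have h5 : ((a % d : ℕ) : ℤ) + b = ((a:ℤ) + b) + d * (-((a / d : ℕ) : ℤ)) := by
      have h6 : (a:ℤ) = ((a % d : ℕ) : ℤ) + d * ((a / d : ℕ) : ℤ) := by
        exact_mod_cast (Nat.mod_add_div a d).symm
      rw [mul_neg]
      linarith
    rw [← Int.isCoprime_iff_gcd_eq_one, h5]
    exact IsCoprime.add_mul_left_left h4 _

theorem sv_mul (b : ℤ) (p Q : ℕ) (hp : 0 < p) (hQ : 0 < Q) (hc : p.Coprime Q) :
    (sv b (p * Q)).card ≤ (sv b p).card * (sv b Q).card := by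
  rw [← card_product]
  apply card_le_card_of_injOn (fun a => (a % p, a % Q))
  · intro a ha
    rw [Finset.mem_coe] at ha
    rw [Finset.mem_coe, mem_product]
    exact ⟨mod_sv hp (Dvd.intro _ rfl) ha, mod_sv hQ (Dvd.intro_left _ rfl) ha⟩
  · intro a ha a' ha' h
    rw [Finset.mem_coe, mem_sv] at ha ha'
    simp only [Prod.mk.injEq] at h
    have h1 : a ≡ a' [MOD p * Q] := (Nat.modEq_and_modEq_iff_modEq_mul hc).mp ⟨h.1, h.2⟩
    exact Nat.ModEq.eq_of_lt_of_lt h1 ha.1 ha'.1

/-- local factor -/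
noncomputable def gg (b : ℤ) (p : ℕ) : ℝ := if (p : ℤ) ∣ b then (p : ℝ) - 1 else (p : ℝ) - 2

theorem sv_prime (b : ℤ) (p : ℕ) (hp : p.Prime) : ((sv b p).card : ℝ) ≤ gg b p := by
  have hp0 := hp.pos
  have h0 : ∀ a ∈ sv b p, a ≠ 0 := by
    intro a ha h
    subst h
    rw [mem_sv] at ha
    have h2 := ha.2.1
    rw [Nat.coprime_zero_left] at h2
    exact hp.one_lt.ne' h2
  unfold gg
  split_ifs with h
  · have h1 : sv b p ⊆ (range p).erase 0 := by
      intro a ha
      rw [mem_erase, mem_range]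
      exact ⟨h0 a ha, (mem_sv.mp ha).1⟩
    have h2 := card_le_card h1
    rw [card_erase_of_mem (mem_range.mpr hp0), card_range] at h2
    have h3 : (sv b p).card + 1 ≤ p := by omega
    have h4 : ((sv b p).card : ℝ) + 1 ≤ p := by exact_mod_cast h3
    linarith
  · set r := ((-b) % (p:ℤ)).toNat with hr
    have hpz : (p:ℤ) ≠ 0 := by exact_mod_cast hp.ne_zero
    have hr0 : 0 ≤ (-b) % (p:ℤ) := Int.emod_nonneg _ hpz
    have hrc : (r:ℤ) = (-b) % (p:ℤ) := by rw [hr]; exact Int.toNat_of_nonneg hr0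
    have hrp : r < p := by
      have := Int.emod_lt_of_pos (-b) (by exact_mod_cast hp0 : (0:ℤ) < p)
      rw [← hrc] at this
      exact_mod_cast this
    have hrd : (p:ℤ) ∣ (r:ℤ) + b := by
      rw [hrc]
      have := Int.mul_ediv_add_emod (-b) p
      exact ⟨-((-b) / (p:ℤ)), by linarith⟩
    have hrne : r ≠ 0 := by
      intro h5
      rw [h5] at hrd
      apply h
      simpa using hrd
    have h1 : sv b p ⊆ ((range p).erase 0).erase r := by
      intro a ha
      rw [mem_erase, mem_erase, mem_range]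
      refine ⟨?_, h0 a ha, (mem_sv.mp ha).1⟩
      intro h5
      subst h5
      have h6 := (mem_sv.mp ha).2.2
      rw [Int.gcd_eq_natAbs_right hrd] at h6
      simp at h6
      exact hp.one_lt.ne' h6
    have h2 := card_le_card h1
    rw [card_erase_of_mem (by rw [mem_erase, mem_range]; exact ⟨hrne, hrp⟩),
      card_erase_of_mem (mem_range.mpr hp0), card_range] at h2
    have h3 : (sv b p).card + 2 ≤ p := by
      have := hp.two_le
      omega
    have h4 : ((sv b p).card : ℝ) + 2 ≤ p := by exact_mod_cast h3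
    linarith

theorem gg_nonneg (b : ℤ) (p : ℕ) (hp : p.Prime) : 0 ≤ gg b p :=
  le_trans (by positivity) (sv_prime b p hp)

theorem sv_prod (b : ℤ) (P : Finset ℕ) (hP : ∀ p ∈ P, p.Prime) :
    ((sv b (∏ p ∈ P, p)).card : ℝ) ≤ ∏ p ∈ P, gg b p := by
  induction P using Finset.induction_on with
  | empty =>
    simp only [prod_empty]
    have : (sv b 1).card ≤ 1 := by
      refine (card_filter_le _ _).trans ?_
      simp
    exact_mod_cast this
  | insert p P hp ih =>
    rw [prod_insert hp, prod_insert hp]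
    have hpp := hP p (mem_insert_self _ _)
    have hPP : ∀ q ∈ P, q.Prime := fun q hq => hP q (mem_insert_of_mem hq)
    have hQ : 0 < ∏ q ∈ P, q := prod_pos fun q hq => (hPP q hq).pos
    have hc : p.Coprime (∏ q ∈ P, q) := by
      apply Nat.Coprime.prod_right
      intro q hq
      rw [Nat.coprime_primes hpp (hPP q hq)]
      rintro rfl
      exact hp hq
    calc ((sv b (p * ∏ q ∈ P, q)).card : ℝ) ≤
        (((sv b p).card * (sv b (∏ q ∈ P, q)).card : ℕ) : ℝ) := by
          exact_mod_cast sv_mul b p _ hpp.pos hQ hc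
      _ = ((sv b p).card : ℝ) * ((sv b (∏ q ∈ P, q)).card : ℝ) := by push_cast; ring
      _ ≤ _ := mul_le_mul (sv_prime b p hpp) (ih hPP) (by positivity) (gg_nonneg b p hpp)

theorem totient_ratio (n : ℕ) (hn : n ≠ 0) :
    (n : ℝ) / (Nat.totient n : ℝ) = 1 / BE n.primeFactors := by
  have h1 : (Nat.totient n : ℝ) = n * BE n.primeFactors := by
    have := Nat.totient_eq_mul_prod_factors n
    have h2 : ((Nat.totient n : ℚ) : ℝ) = ((n * ∏ p ∈ n.primeFactors, (1 - (p : ℚ)⁻¹) : ℚ) : ℝ) := by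
      rw [this]
    unfold BE
    push_cast at h2
    simpa [one_div] using h2
  rw [h1]
  have h3 : 0 < BE n.primeFactors := BE_pos (fun p hp => Nat.prime_of_mem_primeFactors hp)
  have h4 : (n:ℝ) ≠ 0 := by exact_mod_cast hn
  field_simp

theorem gg_prod_le (b : ℤ) (hb : b ≠ 0) (P : Finset ℕ) (hP : ∀ p ∈ P, p.Prime) :
    ∏ p ∈ P, gg b p ≤ (∏ p ∈ P, ((p:ℝ) - 1)) * BE P *
      ((b.natAbs : ℝ) / (Nat.totient b.natAbs : ℝ)) := by
  have hn : b.natAbs ≠ 0 := Int.natAbs_ne_zero.mpr hb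
  have h1 : ∀ p ∈ P, gg b p ≤ (((p:ℝ) - 1) * (1 - 1 / (p:ℝ))) *
      (if (p:ℤ) ∣ b then (1 - 1 / (p:ℝ))⁻¹ else 1) := by
    intro p hp
    have hpp := hP p hp
    have hp2 : (2:ℝ) ≤ p := by exact_mod_cast hpp.two_le
    have h3 := one_sub_prime_pos hpp
    unfold gg
    split_ifs with h
    · rw [mul_assoc, mul_inv_cancel₀ h3.ne', mul_one]
    · rw [mul_one]
      have : ((p:ℝ) - 1) * (1 - 1 / (p:ℝ)) = (p:ℝ) - 2 + 1 / p := by
        field_simp
        ring
      rw [this]
      have : (0:ℝ) ≤ 1 / p := by positivity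
      linarith
  refine (Finset.prod_le_prod (fun p hp => gg_nonneg b p (hP p hp)) h1).trans ?_
  rw [prod_mul_distrib, prod_mul_distrib]
  unfold BE
  apply mul_le_mul_of_nonneg_left
  · rw [totient_ratio _ hn, ← prod_filter, prod_inv_distrib, one_div]
    have h4 : P.filter (fun p : ℕ => (p:ℤ) ∣ b) ⊆ b.natAbs.primeFactors := by
      intro p hp
      rw [mem_filter] at hp
      rw [Nat.mem_primeFactors]
      exact ⟨hP p hp.1, Int.natCast_dvd.mp hp.2, hn⟩
    have h5 := BE_anti h4 (fun p hp => Nat.prime_of_mem_primeFactors hp)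
    have h6 : 0 < BE b.natAbs.primeFactors :=
      BE_pos (fun p hp => Nat.prime_of_mem_primeFactors hp)
    exact inv_anti₀ h6 h5
  · apply mul_nonneg
    · apply prod_nonneg
      intro p hp
      have : (1:ℝ) ≤ p := by exact_mod_cast (hP p hp).one_lt.le
      linarith
    · exact prod_nonneg fun p hp => (one_sub_prime_pos (hP p hp)).le

/-- the density of the big modulus -/
theorem BE_PW_le : ∃ C : ℝ, 0 < C ∧ ∃ X0 : ℝ, ∀ X : ℝ, X0 ≤ X → ∀ (Z ps : ℕ) (S : Finset ℕ),
    GoodP Z ps → GoodS X S → BE (PW X S ps) ≤ C / Real.log (Real.log X) := by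
  obtain ⟨C, hC⟩ := Pool.Agent.Erdos456.Mert.mertens_inv
  have hlog := Real.tendsto_log_atTop
  have hll : Tendsto (fun X : ℝ => Real.log (Real.log X)) atTop atTop := hlog.comp hlog
  refine ⟨2 * Real.exp (C + 7), by positivity, ?_⟩
  apply eventually_atTop.mp
  filter_upwards [hlog.eventually_ge_atTop (4 * 10 ^ 6 : ℝ), hll.eventually_ge_atTop 4]
    with X h1 h2
  intro Z ps S hps hS
  set L := Real.log X with hL
  set l := Real.log L with hl
  have hL0 : 0 < L := by linarith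
  have hl0 : 0 < l := by linarith
  have hy1 : L / 2000 ≤ (yy X : ℝ) := by
    have : L / 1000 < (yy X : ℝ) + 1 := Nat.lt_floor_add_one _
    linarith
  have hy2 : Real.sqrt L ≤ (yy X : ℝ) := by
    refine le_trans ?_ hy1
    have h3 : Real.sqrt L ^ 2 = L := Real.sq_sqrt hL0.le
    have h4 : 2000 ≤ Real.sqrt L := by
      apply Real.le_sqrt_of_sq_le
      linarith
    nlinarith
  have hy3 : 3 ≤ yy X := by
    have : (2000:ℝ) ≤ yy X := by
      have : 4 * 10 ^ 6 / 2000 ≤ L / 2000 := by linarith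
      linarith
    have : 2000 ≤ yy X := by exact_mod_cast this
    omega
  have h5 : l / 2 ≤ Real.log (yy X) := by
    have : Real.log (Real.sqrt L) = l / 2 := by rw [Real.log_sqrt hL0.le]
    rw [← this]
    exact Real.log_le_log (Real.sqrt_pos.mpr hL0) hy2
  have h6 : Real.log (l / 2) ≤ Real.log (Real.log (yy X)) :=
    Real.log_le_log (by positivity) h5
  have h7 := (abs_le.mp (hC (yy X) hy3)).1
  have h8 : ∑ p ∈ (Icc 1 (yy X)).filter Nat.Prime, (1:ℝ) / p ≤
      ∑ p ∈ PW X S ps, (1:ℝ) / p + ∑ q ∈ S, (1:ℝ) / q + 1 := by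
    have h9 : (Icc 1 (yy X)).filter Nat.Prime ⊆
        (PW X S ps ∪ S) ∪ ({ps} : Finset ℕ) := by
      intro p hp
      rw [mem_filter] at hp
      by_cases g1 : p ∈ S
      · exact mem_union_left _ (mem_union_right _ g1)
      · by_cases g2 : p = ps
        · subst g2
          exact mem_union_right _ (mem_singleton_self _)
        · apply mem_union_left
          apply mem_union_left
          unfold PW
          rw [mem_filter]
          exact ⟨hp.1, hp.2, g1, g2⟩
    calc ∑ p ∈ (Icc 1 (yy X)).filter Nat.Prime, (1:ℝ) / p ≤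
        ∑ p ∈ (PW X S ps ∪ S) ∪ ({ps} : Finset ℕ), (1:ℝ) / p :=
          sum_le_sum_of_subset_of_nonneg h9 (fun _ _ _ => by positivity)
      _ ≤ ∑ p ∈ (PW X S ps ∪ S), (1:ℝ) / p + ∑ p ∈ ({ps} : Finset ℕ), (1:ℝ) / p := by
          rw [← sum_union_inter]
          have : 0 ≤ ∑ p ∈ (PW X S ps ∪ S) ∩ ({ps} : Finset ℕ), (1:ℝ) / p :=
            sum_nonneg fun _ _ => by positivity
          linarith
      _ ≤ (∑ p ∈ PW X S ps, (1:ℝ) / p + ∑ q ∈ S, (1:ℝ) / q) + 1 := by
          apply add_le_add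
          · rw [← sum_union_inter (s₁ := PW X S ps) (s₂ := S)]
            have : 0 ≤ ∑ p ∈ PW X S ps ∩ S, (1:ℝ) / p :=
              sum_nonneg fun _ _ => by positivity
            linarith
          · rw [sum_singleton]
            rcases Nat.eq_zero_or_pos ps with h | h
            · rw [h]; norm_num
            · rw [div_le_one (by exact_mod_cast h)]
              exact_mod_cast h
  have h10 : ∑ q ∈ S, (1:ℝ) / q ≤ 6 := by
    refine hS.2.trans ?_
    rw [div_le_iff₀ (by positivity)]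
    have : (1:ℝ) ≤ l ^ 2 := one_le_pow₀ (by linarith)
    linarith
  have h11 : Real.log (l / 2) - (C + 7) ≤ ∑ p ∈ PW X S ps, (1:ℝ) / p := by linarith
  have h12 : BE (PW X S ps) ≤ Real.exp (-∑ p ∈ PW X S ps, (1:ℝ) / p) := by
    unfold BE
    rw [← sum_neg_distrib, Real.exp_sum]
    apply Finset.prod_le_prod
    · intro p hp
      exact (one_sub_prime_pos (mem_PW.1 hp).2.1).le
    · intro p _
      have := Real.add_one_le_exp (-((1:ℝ) / p))
      linarith
  refine h12.trans ?_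
  calc Real.exp (-∑ p ∈ PW X S ps, (1:ℝ) / p) ≤ Real.exp ((C + 7) - Real.log (l / 2)) :=
        Real.exp_le_exp.mpr (by linarith)
    _ = 2 * Real.exp (C + 7) / l := by
        rw [Real.exp_sub, Real.exp_log (by positivity)]
        field_simp

theorem surv_avg : ∃ (Z : ℕ) (C₇ : ℝ), 0 < C₇ ∧ ∃ X0 : ℝ, ∀ X : ℝ, X0 ≤ X →
    ∀ (ps : ℕ) (S : Finset ℕ), GoodP Z ps → GoodS X S →
    ∀ B : Finset ℤ, (∀ b ∈ B, b ≠ 0) →
      ∑ a ∈ (range (WW X S ps)).filter (fun a => a.Coprime (WW X S ps)),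
        ((B.filter (fun b => Int.gcd ((a : ℤ) + b) (WW X S ps : ℤ) = 1)).card : ℝ) ≤
      (Nat.totient (WW X S ps) : ℝ) * (C₇ / Real.log (Real.log X)) *
        ∑ b ∈ B, (b.natAbs : ℝ) / (Nat.totient b.natAbs : ℝ) := by
  obtain ⟨C, hC0, X0, hX⟩ := BE_PW_le
  refine ⟨2, C, hC0, X0, fun X hX0 ps S hps hS B hB => ?_⟩
  have hBE := hX X hX0 2 ps S hps hS
  have hPW : ∀ p ∈ PW X S ps, p.Prime := fun p hp => (mem_PW.1 hp).2.1
  have h1 : ∑ a ∈ (range (WW X S ps)).filter (fun a => a.Coprime (WW X S ps)),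
      ((B.filter (fun b => Int.gcd ((a : ℤ) + b) (WW X S ps : ℤ) = 1)).card : ℝ) =
      ∑ b ∈ B, ((sv b (WW X S ps)).card : ℝ) := by
    have e1 : ∀ a ∈ (range (WW X S ps)).filter (fun a => a.Coprime (WW X S ps)),
        ((B.filter (fun b => Int.gcd ((a : ℤ) + b) (WW X S ps : ℤ) = 1)).card : ℝ) =
        ∑ b ∈ B, (if Int.gcd ((a : ℤ) + b) (WW X S ps : ℤ) = 1 then (1:ℝ) else 0) := by
      intro a _
      rw [card_filter]
      push_cast
      rfl
    rw [sum_congr rfl e1, sum_comm]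
    apply sum_congr rfl
    intro b _
    unfold sv
    rw [← filter_filter, card_filter]
    push_cast
    rfl
  rw [h1, mul_sum]
  apply sum_le_sum
  intro b hb
  have hW : WW X S ps = ∏ p ∈ PW X S ps, p := rfl
  have h2 := sv_prod b (PW X S ps) hPW
  rw [← hW] at h2
  refine h2.trans ((gg_prod_le b (hB b hb) (PW X S ps) hPW).trans ?_)
  have h3 : ∏ p ∈ PW X S ps, ((p:ℝ) - 1) = (Nat.totient (WW X S ps) : ℝ) := by
    rw [totient_WW]
    unfold WW BE
    push_cast
    rw [← prod_mul_distrib]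
    apply prod_congr rfl
    intro p hp
    have : (p : ℝ) ≠ 0 := by exact_mod_cast (hPW p hp).ne_zero
    field_simp
  rw [h3]
  apply mul_le_mul_of_nonneg_right _ (by positivity)
  exact mul_le_mul_of_nonneg_left hBE (by positivity)

end Pool.Agent.L5helper11.IS
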