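import Pool.Agent.L5helper1.IS.Rep2
import Pool.Agent.H378R2.LSBV3

/-! Sum of the coefficients over the assignments whose modulus is divisible by `d`. -/

open Finset

namespace Pool.Agent.L5helper11.IS

open Pool.Agent.H256R2.SC Pool.Agent.Y831.RC Pool.Agent.L5helper1.IS

/-- the primes of the two blocks -/
noncomputable def PR (PP₁ PP₂ : Finset ℕ) : Fin (PP₁.card + PP₂.card) → ℕ :=
  Fin.append (emb PP₁) (emb PP₂)

section
variable {PP₁ PP₂ : Finset ℕ}

theorem PR_mem (i : Fin (PP₁.card + PP₂.card)) : PR PP₁ PP₂ i ∈ PP₁ ∪ PP₂ := by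
  unfold PR
  refine Fin.addCases (fun j => ?_) (fun j => ?_) i
  · rw [Fin.append_left]
    exact Finset.mem_union_left _ (emb_mem PP₁ j)
  · rw [Fin.append_right]
    exact Finset.mem_union_right _ (emb_mem PP₂ j)

theorem PR_prime (h₁ : ∀ p ∈ PP₁, p.Prime) (h₂ : ∀ p ∈ PP₂, p.Prime)
    (i : Fin (PP₁.card + PP₂.card)) : (PR PP₁ PP₂ i).Prime := by
  have := PR_mem (PP₁ := PP₁) (PP₂ := PP₂) i
  rw [Finset.mem_union] at this
  rcases this with h | h
  · exact h₁ _ h
  · exact h₂ _ h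

theorem PR_inj (hd : Disjoint PP₁ PP₂) : Function.Injective (PR PP₁ PP₂) := by
  intro i
  refine Fin.addCases (fun a => ?_) (fun a => ?_) i
  · intro j
    refine Fin.addCases (fun b => ?_) (fun b => ?_) j
    · intro h
      unfold PR at h
      rw [Fin.append_left, Fin.append_left] at h
      rw [(emb PP₁).injective h]
    · intro h
      unfold PR at h
      rw [Fin.append_left, Fin.append_right] at h
      exfalso
      have h1 := emb_mem PP₁ a
      have h2 := emb_mem PP₂ b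
      rw [h] at h1
      exact (Finset.disjoint_left.mp hd) h1 h2
  · intro j
    refine Fin.addCases (fun b => ?_) (fun b => ?_) j
    · intro h
      unfold PR at h
      rw [Fin.append_left, Fin.append_right] at h
      exfalso
      have h1 := emb_mem PP₁ b
      have h2 := emb_mem PP₂ a
      rw [← h] at h1
      exact (Finset.disjoint_left.mp hd) h1 h2
    · intro h
      unfold PR at h
      rw [Fin.append_right, Fin.append_right] at h
      rw [(emb PP₂).injective h]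

variable {κ : Type} [Fintype κ] [DecidableEq κ]

theorem qn_eq (PP : Finset ℕ) (D : Col PP.card κ) :
    qn PP D = ∏ i, if D i ≠ none then emb PP i else 1 := by
  unfold qn supp
  rw [Finset.prod_filter]

theorem q_eq (D : Col (PP₁.card + PP₂.card) κ) :
    qn PP₁ (fstc D) * qn PP₂ (sndc D) = ∏ i ∈ supp D, PR PP₁ PP₂ i := by
  unfold supp
  rw [qn_eq, qn_eq, Finset.prod_filter, Fin.prod_univ_add]
  unfold PR
  simp only [Fin.append_left, Fin.append_right]
  rfl

theorem tot_prod (h₁ : ∀ p ∈ PP₁, p.Prime) (h₂ : ∀ p ∈ PP₂, p.Prime) (hd : Disjoint PP₁ PP₂)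
    (s : Finset (Fin (PP₁.card + PP₂.card))) :
    (Nat.totient (∏ i ∈ s, PR PP₁ PP₂ i) : ℝ) = ∏ i ∈ s, ((PR PP₁ PP₂ i : ℝ) - 1) := by
  classical
  induction s using Finset.induction_on with
  | empty => simp
  | insert a s ha ih =>
    rw [Finset.prod_insert ha, Finset.prod_insert ha, Nat.totient_mul, Nat.totient_prime
      (PR_prime h₁ h₂ a)]
    · push_cast
      rw [ih, Nat.cast_sub (PR_prime h₁ h₂ a).one_lt.le]
      simp
    · apply Nat.Coprime.prod_right
      intro j hj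
      rw [Nat.coprime_primes (PR_prime h₁ h₂ a) (PR_prime h₁ h₂ j)]
      intro h
      exact ha ((PR_inj hd h) ▸ hj)

theorem sqf_prod (h₁ : ∀ p ∈ PP₁, p.Prime) (h₂ : ∀ p ∈ PP₂, p.Prime) (hd : Disjoint PP₁ PP₂)
    (s : Finset (Fin (PP₁.card + PP₂.card))) : Squarefree (∏ i ∈ s, PR PP₁ PP₂ i) := by
  classical
  induction s using Finset.induction_on with
  | empty => simp
  | insert a s ha ih =>
    rw [Finset.prod_insert ha, Nat.squarefree_mul]
    · exact ⟨(PR_prime h₁ h₂ a).squarefree, ih⟩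
    · apply Nat.Coprime.prod_right
      intro j hj
      rw [Nat.coprime_primes (PR_prime h₁ h₂ a) (PR_prime h₁ h₂ j)]
      intro h
      exact ha ((PR_inj hd h) ▸ hj)

theorem dvd_prod_iff (h₁ : ∀ p ∈ PP₁, p.Prime) (h₂ : ∀ p ∈ PP₂, p.Prime) (hd : Disjoint PP₁ PP₂)
    (s : Finset (Fin (PP₁.card + PP₂.card))) (i : Fin (PP₁.card + PP₂.card))
    (h : PR PP₁ PP₂ i ∣ ∏ i ∈ s, PR PP₁ PP₂ i) : i ∈ s := by
  rw [(PR_prime h₁ h₂ i).prime.dvd_finsetProd_iff] at h
  obtain ⟨j, hj, hij⟩ := h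
  rw [Nat.prime_dvd_prime_iff_eq (PR_prime h₁ h₂ i) (PR_prime h₁ h₂ j)] at hij
  exact (PR_inj hd hij) ▸ hj

theorem sum_emb (PP : Finset ℕ) (g : ℕ → ℝ) : ∑ i, g (emb PP i) = ∑ p ∈ PP, g p := by
  have h : univ.map (emb PP) = PP := by
    ext p
    rw [Finset.mem_map]
    constructor
    · rintro ⟨i, _, rfl⟩
      exact emb_mem PP i
    · intro hp
      obtain ⟨i, hi⟩ := emb_surj PP hp
      exact ⟨i, Finset.mem_univ _, hi⟩
  conv_rhs => rw [← h]
  rw [Finset.sum_map]

theorem sum_PR (hd : Disjoint PP₁ PP₂) (g : ℕ → ℝ) :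
    ∑ i, g (PR PP₁ PP₂ i) = ∑ p ∈ PP₁ ∪ PP₂, g p := by
  rw [Fin.sum_univ_add, Finset.sum_union hd]
  unfold PR
  simp only [Fin.append_left, Fin.append_right]
  rw [sum_emb, sum_emb]

end

open Pool.Agent.H378R2.LSBV Pool.Agent.H398R2.BV in
theorem coef_sum (mC : ℝ) (hmC : 0 ≤ mC) : ∃ C5 : ℝ, 0 < C5 ∧ ∀ PP₁ PP₂ : Finset ℕ,
    (∀ p ∈ PP₁, p.Prime) → (∀ p ∈ PP₂, p.Prime) → Disjoint PP₁ PP₂ →
    ∀ (κ : Type) [Fintype κ] [DecidableEq κ] (m : ℕ) (C M : ℝ), 0 ≤ C → 0 ≤ M → (m : ℝ) * C ≤ mC →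
    ∀ f : Col (PP₁.card + PP₂.card) κ → ℝ, (∀ D, |f D| ≤ M * nu (fun _ => C) D) →
      (∀ D, f D ≠ 0 → (cols D).card ≤ m) → ∀ d : ℕ, 1 ≤ d →
      ∑ D with d ∣ qn PP₁ (fstc D) * qn PP₂ (sndc D),
        |f D| / (Nat.totient (qn PP₁ (fstc D) * qn PP₂ (sndc D)) : ℝ) ≤
      M * ((Fintype.card κ : ℝ) + 1) ^ m * Real.exp (mC * ∑ p ∈ PP₁ ∪ PP₂, 1 / ((p : ℝ) - 1)) *
        (C5 / Real.sqrt d) := by
  classical
  obtain ⟨A, hA⟩ := pow_unbounded_of_one_lt mC (one_lt_two (α := ℝ))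
  obtain ⟨C5, hC5, hwt⟩ := wt_le A
  refine ⟨C5, hC5, ?_⟩
  intro PP₁ PP₂ h₁ h₂ hd κ _ _ m C M hC hM hmCle f hf hcols d hd1
  set P := PR PP₁ PP₂ with hP
  have hPp : ∀ i, (P i).Prime := PR_prime h₁ h₂
  set g : Fin (PP₁.card + PP₂.card) → ℝ := fun i => 1 / ((P i : ℝ) - 1) with hg
  have hP1 : ∀ i, 0 < (P i : ℝ) - 1 := fun i => by
    have : (1:ℝ) < P i := by exact_mod_cast (hPp i).one_lt
    linarith
  have hg0 : ∀ i, 0 ≤ g i := fun i => by
    simp only [hg]
    have := hP1 i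
    positivity
  have hdr : (1:ℝ) ≤ d := by exact_mod_cast hd1
  have hRHS : 0 ≤ M * ((Fintype.card κ : ℝ) + 1) ^ m *
      Real.exp (mC * ∑ p ∈ PP₁ ∪ PP₂, 1 / ((p : ℝ) - 1)) * (C5 / Real.sqrt d) := by positivity
  by_cases hex : ∃ D : Col (PP₁.card + PP₂.card) κ, d ∣ qn PP₁ (fstc D) * qn PP₂ (sndc D)
  swap
  · push Not at hex
    rw [Finset.sum_eq_zero]
    · exact hRHS
    · intro D hD
      exact absurd (Finset.mem_filter.1 hD).2 (hex D)
  obtain ⟨D0, hD0⟩ := hex
  rw [q_eq] at hD0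
  have hdsq : Squarefree d := (sqf_prod h₁ h₂ hd _).squarefree_of_dvd hD0
  have hd0 : d ≠ 0 := by omega
  set S : Finset (Fin (PP₁.card + PP₂.card)) := univ.filter (fun i => P i ∣ d) with hS
  have hpf : d.primeFactors = S.image P := by
    ext p
    rw [Nat.mem_primeFactors, Finset.mem_image]
    constructor
    · rintro ⟨hp, hpd, _⟩
      have h3 := hpd.trans hD0
      rw [hp.prime.dvd_finsetProd_iff] at h3
      obtain ⟨j, _, hj2⟩ := h3
      have h4 : p = P j := (Nat.prime_dvd_prime_iff_eq hp (hPp j)).mp hj2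
      refine ⟨j, ?_, h4.symm⟩
      rw [hS, Finset.mem_filter]
      exact ⟨Finset.mem_univ _, h4 ▸ hpd⟩
    · rintro ⟨j, hj, rfl⟩
      rw [hS, Finset.mem_filter] at hj
      exact ⟨hPp j, hj.2, hd0⟩
  have hinj : Set.InjOn P (S : Set (Fin (PP₁.card + PP₂.card))) := (PR_inj hd).injOn
  have hdS : d = ∏ i ∈ S, P i := by
    conv_lhs => rw [← Nat.prod_primeFactors_of_squarefree hdsq]
    rw [hpf, Finset.prod_image hinj]
  have hcardS : d.primeFactors.card = S.card := by
    rw [hpf, Finset.card_image_of_injOn hinj]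
  have hφd : (Nat.totient d : ℝ) = ∏ i ∈ S, ((P i : ℝ) - 1) := by
    conv_lhs => rw [hdS]
    exact tot_prod h₁ h₂ hd S
  -- local factors
  set t : Fin (PP₁.card + PP₂.card) → Option κ → ℝ := fun i c =>
    match c with
    | none => if i ∈ S then 0 else 1
    | some _ => C * g i with ht
  have ht0 : ∀ i c, 0 ≤ t i c := by
    intro i c
    cases c with
    | none =>
      simp only [ht]
      split_ifs
      · exact le_rfl
      · exact zero_le_one
    | some k =>
      simp only [ht]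
      exact mul_nonneg hC (hg0 i)
  have hterm : ∀ D : Col (PP₁.card + PP₂.card) κ,
      d ∣ qn PP₁ (fstc D) * qn PP₂ (sndc D) →
      |f D| / (Nat.totient (qn PP₁ (fstc D) * qn PP₂ (sndc D)) : ℝ) ≤ M * ∏ i, t i (D i) := by
    intro D hD
    rw [q_eq] at hD ⊢
    rw [tot_prod h₁ h₂ hd]
    have hSD : ∀ i ∈ S, D i ≠ none := by
      intro i hi
      rw [hS, Finset.mem_filter] at hi
      exact mem_supp.1 (dvd_prod_iff h₁ h₂ hd (supp D) i (hi.2.trans hD))
    have hpos : 0 < ∏ i ∈ supp D, ((PR PP₁ PP₂ i : ℝ) - 1) := Finset.prod_pos fun i _ => hP1 i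
    rw [div_le_iff₀ hpos]
    refine (hf D).trans (le_of_eq ?_)
    rw [mul_assoc]
    congr 1
    have e1 : ∏ i ∈ supp D, ((PR PP₁ PP₂ i : ℝ) - 1) =
        ∏ i, (if D i ≠ none then ((PR PP₁ PP₂ i : ℝ) - 1) else 1) := by
      unfold supp
      rw [Finset.prod_filter]
    rw [e1, ← Finset.prod_mul_distrib]
    unfold nu
    apply Finset.prod_congr rfl
    intro i _
    cases hDi : D i with
    | none =>
      have hi : i ∉ S := fun h => hSD i h hDi
      simp [nu1, ht, hi]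
    | some k =>
      have h5 := (hP1 i).ne'
      simp only [nu1, ht, hg, ne_eq, reduceCtorEq, not_false_eq_true, if_true]
      rw [← hP]
      field_simp
  have hstep : ∑ D with d ∣ qn PP₁ (fstc D) * qn PP₂ (sndc D),
        |f D| / (Nat.totient (qn PP₁ (fstc D) * qn PP₂ (sndc D)) : ℝ) ≤
      ∑ D : Col (PP₁.card + PP₂.card) κ with (cols D).card ≤ m, M * ∏ i, t i (D i) := by
    have e1 : ∑ D with d ∣ qn PP₁ (fstc D) * qn PP₂ (sndc D),
        |f D| / (Nat.totient (qn PP₁ (fstc D) * qn PP₂ (sndc D)) : ℝ) =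
        ∑ D with (d ∣ qn PP₁ (fstc D) * qn PP₂ (sndc D)) ∧ f D ≠ 0,
        |f D| / (Nat.totient (qn PP₁ (fstc D) * qn PP₂ (sndc D)) : ℝ) := by
      rw [← Finset.filter_filter]
      symm
      apply Finset.sum_filter_of_ne
      intro D _ hne h0
      apply hne
      rw [h0]
      simp
    rw [e1]
    calc _ ≤ ∑ D with (d ∣ qn PP₁ (fstc D) * qn PP₂ (sndc D)) ∧ f D ≠ 0, M * ∏ i, t i (D i) := by
          apply Finset.sum_le_sum
          intro D hD
          exact hterm D (Finset.mem_filter.1 hD).2.1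
      _ ≤ _ := by
          apply Finset.sum_le_sum_of_subset_of_nonneg
          · intro D hD
            rw [Finset.mem_filter] at hD ⊢
            exact ⟨Finset.mem_univ _, hcols D hD.2.2⟩
          · intro D _ _
            exact mul_nonneg hM (Finset.prod_nonneg fun i _ => ht0 i _)
  refine hstep.trans ?_
  rw [← Finset.mul_sum]
  set G : ℝ := (∏ i ∈ S, (mC * g i)) * Real.exp (mC * ∑ i, g i) with hG
  have hG0 : 0 ≤ G := mul_nonneg (Finset.prod_nonneg fun i _ => mul_nonneg hmC (hg0 i))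
    (Real.exp_pos _).le
  have hfew := sum_few (κ := κ) t ht0 m G (fun A' hA' => ?_) hG0
  swap
  · have e1 : ∀ i, t i none + ∑ k ∈ A', t i (some k) ≤
        (if i ∈ S then mC * g i else 1) * (1 + mC * g i) := by
      intro i
      have e2 : ∑ k ∈ A', t i (some k) ≤ mC * g i := by
        simp only [ht]
        rw [Finset.sum_const, nsmul_eq_mul, ← mul_assoc]
        apply mul_le_mul_of_nonneg_right _ (hg0 i)
        refine le_trans ?_ hmCle
        apply mul_le_mul_of_nonneg_right _ hC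
        exact_mod_cast hA'
      have e3 : 0 ≤ mC * g i := mul_nonneg hmC (hg0 i)
      have e4 : t i none = if i ∈ S then 0 else 1 := rfl
      rw [e4]
      split_ifs
      · nlinarith
      · linarith
    have e0 : ∀ i, 0 ≤ t i none + ∑ k ∈ A', t i (some k) := fun i =>
      add_nonneg (ht0 i none) (Finset.sum_nonneg fun k _ => ht0 i (some k))
    refine (Finset.prod_le_prod (fun i _ => e0 i) fun i _ => e1 i).trans ?_
    rw [Finset.prod_mul_distrib, hG]
    have e5 : ∏ i, (if i ∈ S then mC * g i else 1) = ∏ i ∈ S, (mC * g i) := by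
      rw [← Finset.prod_filter]
      congr 1
      ext i
      simp
    rw [e5]
    apply mul_le_mul_of_nonneg_left (exp_prod g mC hmC hg0)
    exact Finset.prod_nonneg fun i _ => mul_nonneg hmC (hg0 i)
  have hS2 : ∏ i ∈ S, (mC * g i) ≤ C5 / Real.sqrt d := by
    refine le_trans ?_ (hwt d hd1)
    unfold Pool.Agent.H378R2.LSBV.wt
    rw [hφd, Finset.prod_mul_distrib, Finset.prod_const]
    have e1 : ∏ i ∈ S, g i = 1 / ∏ i ∈ S, ((P i : ℝ) - 1) := by
      simp only [hg]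
      rw [Finset.prod_div_distrib, Finset.prod_const_one]
    rw [e1, mul_one_div]
    apply div_le_div_of_nonneg_right _ (Finset.prod_pos fun i _ => hP1 i).le
    have e2 : (2:ℝ) ^ d.primeFactors.card ≤ d.divisors.card := by
      exact_mod_cast two_pow_omega_le d (by omega)
    calc mC ^ S.card ≤ ((2:ℝ) ^ A) ^ S.card := pow_le_pow_left₀ hmC hA.le _
      _ = ((2:ℝ) ^ S.card) ^ A := by rw [← pow_mul, ← pow_mul, mul_comm]
      _ ≤ (d.divisors.card : ℝ) ^ A := by
          rw [← hcardS]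
          exact pow_le_pow_left₀ (by positivity) e2 A
  have hsum : ∑ i, g i = ∑ p ∈ PP₁ ∪ PP₂, 1 / ((p : ℝ) - 1) := by
    simp only [hg, hP]
    exact sum_PR hd (fun p => 1 / ((p : ℝ) - 1))
  calc M * ∑ D : Col (PP₁.card + PP₂.card) κ with (cols D).card ≤ m, ∏ i, t i (D i) ≤
      M * (((Fintype.card κ : ℝ) + 1) ^ m * G) := mul_le_mul_of_nonneg_left hfew hM
    _ = M * ((Fintype.card κ : ℝ) + 1) ^ m * Real.exp (mC * ∑ i, g i) *
        ∏ i ∈ S, (mC * g i) := by rw [hG]; ring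
    _ ≤ M * ((Fintype.card κ : ℝ) + 1) ^ m * Real.exp (mC * ∑ i, g i) * (C5 / Real.sqrt d) :=
        mul_le_mul_of_nonneg_left hS2 (by positivity)
    _ = _ := by rw [hsum]

end Pool.Agent.L5helper11.IS
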