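import Pool.Agent.L5helper1.IS.Trans
import Pool.Agent.H378R2.M7e
import Pool.Agent.L5helper11.IS.T3

/-! An elementary event of the two blocks of primes, together with a class modulo `W`, is one residue class. -/

open Finset

namespace Pool.Agent.L5helper11.IS

open Pool.Agent.H256R2.SC Pool.Agent.Y831.RC Pool.Agent.H378R2 Pool.Agent.L5helper1.IS

section
variable {PP₁ PP₂ : Finset ℕ} {κ : Type} [Fintype κ] [DecidableEq κ]

/-- the residue of an event is prime to the primes of its support -/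
theorem res_ndvd (bk : κ → ℤ)
    (hi₁ : ∀ p ∈ PP₁, ∀ k l, k ≠ l → ¬ ((p : ℤ) ∣ -bk k - -bk l))
    (hi₂ : ∀ p ∈ PP₂, ∀ k l, k ≠ l → ¬ ((p : ℤ) ∣ -bk k - -bk l))
    (h0₁ : ∀ p ∈ PP₁, ∀ k, ¬ ((p : ℤ) ∣ bk k)) (h0₂ : ∀ p ∈ PP₂, ∀ k, ¬ ((p : ℤ) ∣ bk k))
    (D : Col (PP₁.card + PP₂.card) κ) (r : ℤ)
    (hr : ∀ i, D i ≠ none →
      (Fin.append (colr PP₁ (fun _ k => -bk k) r) (colr PP₂ (fun _ k => -bk k) r) :
        Col (PP₁.card + PP₂.card) κ) i = D i) (i : Fin (PP₁.card + PP₂.card)) (hi : D i ≠ none) :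
    ¬ ((PR PP₁ PP₂ i : ℕ) : ℤ) ∣ r := by
  intro hdvd
  have h := hr i hi
  obtain ⟨k, hk⟩ := Option.ne_none_iff_exists'.mp hi
  rw [hk] at h
  revert h hdvd
  refine Fin.addCases (fun j => ?_) (fun j => ?_) i
  · intro hdvd h
    rw [Fin.append_left, colr_eq hi₁] at h
    unfold PR at hdvd
    rw [Fin.append_left] at hdvd
    apply h0₁ _ (emb_mem PP₁ j) k
    have := dvd_sub h hdvd
    have e : r - -bk k - r = bk k := by ring
    rwa [e] at this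
  · intro hdvd h
    rw [Fin.append_right, colr_eq hi₂] at h
    unfold PR at hdvd
    rw [Fin.append_right] at hdvd
    apply h0₂ _ (emb_mem PP₂ j) k
    have := dvd_sub h hdvd
    have e : r - -bk k - r = bk k := by ring
    rwa [e] at this

theorem nu_inv (D : Col (PP₁.card + PP₂.card) κ) :
    nu (Fin.append (fun i => 1 / ((emb PP₁ i : ℕ) : ℝ)) (fun i => 1 / ((emb PP₂ i : ℕ) : ℝ))) D =
      1 / ((qn PP₁ (fstc D) * qn PP₂ (sndc D) : ℕ) : ℝ) := by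
  rw [nu_append, nu_eq, nu_eq]
  push_cast
  rw [one_div_mul_one_div]

theorem nu_phi (h₁ : ∀ p ∈ PP₁, p.Prime) (h₂ : ∀ p ∈ PP₂, p.Prime) (hd : Disjoint PP₁ PP₂)
    (D : Col (PP₁.card + PP₂.card) κ) :
    nu (Fin.append (fun i => 1 - 1 / ((emb PP₁ i : ℕ) : ℝ)) (fun i => 1 - 1 / ((emb PP₂ i : ℕ) : ℝ))) D =
      (Nat.totient (qn PP₁ (fstc D) * qn PP₂ (sndc D)) : ℝ) /
        ((qn PP₁ (fstc D) * qn PP₂ (sndc D) : ℕ) : ℝ) := by
  have e0 : (Fin.append (fun i => 1 - 1 / ((emb PP₁ i : ℕ) : ℝ)) (fun i => 1 - 1 / ((emb PP₂ i : ℕ) : ℝ)) :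
      Fin (PP₁.card + PP₂.card) → ℝ) = fun i => 1 - 1 / ((PR PP₁ PP₂ i : ℕ) : ℝ) := by
    funext i
    unfold PR
    refine Fin.addCases (fun j => ?_) (fun j => ?_) i
    · rw [Fin.append_left, Fin.append_left]
    · rw [Fin.append_right, Fin.append_right]
  rw [e0, q_eq, tot_prod h₁ h₂ hd]
  unfold nu
  rw [prod_nu1]
  push_cast
  rw [← Finset.prod_div_distrib]
  apply Finset.prod_congr rfl
  intro i _
  have : (PR PP₁ PP₂ i : ℝ) ≠ 0 := by exact_mod_cast (PR_prime h₁ h₂ i).ne_zero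
  field_simp

end

open scoped Classical in
theorem class_meas (X : ℝ) (W a0 : ℕ) (hW : 0 < W) (ha0 : a0.Coprime W) (PP₁ PP₂ : Finset ℕ)
    (h₁ : ∀ p ∈ PP₁, p.Prime) (h₂ : ∀ p ∈ PP₂, p.Prime) (hd : Disjoint PP₁ PP₂)
    (hW₁ : ∀ p ∈ PP₁, ¬ p ∣ W) (hW₂ : ∀ p ∈ PP₂, ¬ p ∣ W)
    (κ : Type) [Fintype κ] [DecidableEq κ] (bk : κ → ℤ)
    (hi₁ : ∀ p ∈ PP₁, ∀ k l, k ≠ l → ¬ ((p : ℤ) ∣ -bk k - -bk l))
    (hi₂ : ∀ p ∈ PP₂, ∀ k l, k ≠ l → ¬ ((p : ℤ) ∣ -bk k - -bk l))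
    (h0₁ : ∀ p ∈ PP₁, ∀ k, ¬ ((p : ℤ) ∣ bk k)) (h0₂ : ∀ p ∈ PP₂, ∀ k, ¬ ((p : ℤ) ∣ bk k))
    (D : Col (PP₁.card + PP₂.card) κ) :
    ∃ b : ℕ, b.Coprime (W * (qn PP₁ (fstc D) * qn PP₂ (sndc D))) ∧
      nu (Fin.append (fun i => 1 - 1 / ((emb PP₁ i : ℕ) : ℝ)) (fun i => 1 - 1 / ((emb PP₂ i : ℕ) : ℝ))) D *
        ∑ n ∈ (Icc 1 ⌊3 * X⌋₊).filter (fun n => n ≡ a0 [MOD W]),
          (Phi (n / X) * ArithmeticFunction.vonMangoldt n) *
            ind D (Fin.append (colr PP₁ (fun _ k => -bk k) (n : ℤ)) (colr PP₂ (fun _ k => -bk k) (n : ℤ)) :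
              Col (PP₁.card + PP₂.card) κ) -
        LPhi X / (Nat.totient W : ℝ) *
          nu (Fin.append (fun i => 1 / ((emb PP₁ i : ℕ) : ℝ)) (fun i => 1 / ((emb PP₂ i : ℕ) : ℝ))) D =
      ((Nat.totient (qn PP₁ (fstc D) * qn PP₂ (sndc D)) : ℝ) /
        ((qn PP₁ (fstc D) * qn PP₂ (sndc D) : ℕ) : ℝ)) *
        EPhi X (W * (qn PP₁ (fstc D) * qn PP₂ (sndc D))) b := by
  obtain ⟨r, hr⟩ := event_two h₁ h₂ hd hi₁ hi₂ D
  rw [nu_phi h₁ h₂ hd, nu_inv]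
  have hQe := q_eq (PP₁ := PP₁) (PP₂ := PP₂) D
  set Q := qn PP₁ (fstc D) * qn PP₂ (sndc D) with hQ
  have hQpos : 0 < Q := by
    rw [hQe]
    exact Finset.prod_pos fun i _ => (PR_prime h₁ h₂ i).pos
  have hrr := (hr r).mpr (by simp)
  have hnd : ∀ i, D i ≠ none → ¬ ((PR PP₁ PP₂ i : ℕ) : ℤ) ∣ r := fun i hi =>
    res_ndvd bk hi₁ hi₂ h0₁ h0₂ D r hrr i hi
  have hWP : ∀ i, ¬ PR PP₁ PP₂ i ∣ W := by
    intro i
    have := PR_mem (PP₁ := PP₁) (PP₂ := PP₂) i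
    rw [Finset.mem_union] at this
    rcases this with h | h
    · exact hW₁ _ h
    · exact hW₂ _ h
  have hWQ : W.Coprime Q := by
    rw [hQe]
    apply Nat.Coprime.prod_right
    intro i _
    rw [Nat.coprime_comm, (PR_prime h₁ h₂ i).coprime_iff_not_dvd]
    exact hWP i
  have hQz : (0:ℤ) < (Q:ℤ) := by exact_mod_cast hQpos
  set r' : ℕ := (r % (Q:ℤ)).toNat with hr'
  have hr'c : (r' : ℤ) = r % (Q:ℤ) := Int.toNat_of_nonneg (Int.emod_nonneg _ hQz.ne')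
  have hr'd : (Q:ℤ) ∣ (r':ℤ) - r := by
    rw [hr'c]
    have := Int.mul_ediv_add_emod r (Q:ℤ)
    exact ⟨-(r / (Q:ℤ)), by linarith⟩
  obtain ⟨b, hb1, hb2⟩ := Nat.chineseRemainder hWQ a0 r'
  have hclass : ∀ n : ℕ, (n ≡ b [MOD W * Q]) ↔ (n ≡ a0 [MOD W] ∧ (Q:ℤ) ∣ (n:ℤ) - r) := by
    intro n
    rw [← Nat.modEq_and_modEq_iff_modEq_mul hWQ]
    have e1 : n ≡ b [MOD Q] ↔ (Q:ℤ) ∣ (n:ℤ) - r := by
      have e2 : (Q:ℤ) ∣ (b:ℤ) - r := by
        have h3 : (Q:ℤ) ∣ (r':ℤ) - (b:ℤ) := by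
          exact (Nat.modEq_iff_dvd).mp hb2
        have h4 : (b:ℤ) - r = ((r':ℤ) - r) - ((r':ℤ) - (b:ℤ)) := by ring
        rw [h4]
        exact dvd_sub hr'd h3
      rw [Nat.modEq_iff_dvd]
      constructor
      · intro h
        have h4 : (n:ℤ) - r = ((b:ℤ) - r) - ((b:ℤ) - (n:ℤ)) := by ring
        rw [h4]
        exact dvd_sub e2 h
      · intro h
        have h4 : (b:ℤ) - (n:ℤ) = ((b:ℤ) - r) - ((n:ℤ) - r) := by ring
        rw [h4]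
        exact dvd_sub e2 h
    constructor
    · rintro ⟨h1, h2⟩
      exact ⟨h1.trans hb1, e1.mp h2⟩
    · rintro ⟨h1, h2⟩
      exact ⟨h1.trans hb1.symm, e1.mpr h2⟩
  refine ⟨b, ?_, ?_⟩
  · apply Nat.Coprime.mul_right
    · have h5 := hb1.gcd_eq
      unfold Nat.Coprime at ha0 ⊢
      rw [h5, ha0]
    · rw [hQe]
      apply Nat.Coprime.prod_right
      intro i hi
      rw [Pool.Agent.H256R2.SC.mem_supp] at hi
      rw [Nat.coprime_comm, (PR_prime h₁ h₂ i).coprime_iff_not_dvd]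
      intro hdb
      apply hnd i hi
      have h6 := ((hclass b).mp rfl).2
      have h7 : ((PR PP₁ PP₂ i : ℕ) : ℤ) ∣ (Q:ℤ) := by
        rw [hQe]
        exact_mod_cast Finset.dvd_prod_of_mem _ (Pool.Agent.H256R2.SC.mem_supp.mpr hi)
      have h8 : ((PR PP₁ PP₂ i : ℕ) : ℤ) ∣ (b:ℤ) := by exact_mod_cast hdb
      have h9 : r = (b:ℤ) - ((b:ℤ) - r) := by ring
      rw [h9]
      exact dvd_sub h8 (h7.trans h6)
  · have hsum : ∑ n ∈ (Icc 1 ⌊3 * X⌋₊).filter (fun n => n ≡ a0 [MOD W]),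
          (Phi (n / X) * ArithmeticFunction.vonMangoldt n) *
            ind D (Fin.append (colr PP₁ (fun _ k => -bk k) (n : ℤ)) (colr PP₂ (fun _ k => -bk k) (n : ℤ)) :
              Col (PP₁.card + PP₂.card) κ) =
        ∑ n ∈ (Icc 1 ⌊3 * X⌋₊).filter (fun n => n ≡ b [MOD W * Q]),
          Phi (n / X) * ArithmeticFunction.vonMangoldt n := by
      rw [Finset.sum_filter, Finset.sum_filter]
      apply Finset.sum_congr rfl
      intro n _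
      have h6 := hr (n:ℤ)
      unfold ind
      by_cases hc : n ≡ b [MOD W * Q]
      · have h7 := (hclass n).mp hc
        rw [if_pos hc, if_pos h7.1, if_pos (h6.mpr h7.2), mul_one]
      · rw [if_neg hc]
        by_cases hc2 : n ≡ a0 [MOD W]
        · rw [if_pos hc2, if_neg, mul_zero]
          intro h8
          exact hc ((hclass n).mpr ⟨hc2, h6.mp h8⟩)
        · rw [if_neg hc2]
    rw [hsum, EPhi_eq, Nat.totient_mul hWQ]
    have g1 : (Nat.totient Q : ℝ) ≠ 0 := by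
      have := Nat.totient_pos.mpr hQpos
      positivity
    have g2 : (Nat.totient W : ℝ) ≠ 0 := by
      have := Nat.totient_pos.mpr hW
      positivity
    have g3 : (Q : ℝ) ≠ 0 := by positivity
    push_cast
    field_simp

end Pool.Agent.L5helper11.IS
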