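import Pool.Agent.L5helper1.IS.Trans
import Pool.Agent.H378R2.M7r
import Pool.Agent.L5helper11.IS.T1
import Pool.Agent.L5helper11.IS.T3
import Pool.Agent.L5helper11.IS.T4

/-! The transfer hypothesis of the dual covering sieve for the primes, from the relative theorem of
Bombieri and Vinogradov with general weights. -/

open Finset Filter Topology

namespace Pool.Agent.L5helper11.IS

open Pool.Agent.H256R2.SC Pool.Agent.Y831.RC Pool.Agent.H378R2 Pool.Agent.L5helper1.IS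

theorem sum_inv_pred : ∃ CM : ℝ, 0 ≤ CM ∧ ∀ X : ℝ, 3 ≤ X → ∀ T : Finset ℕ,
    (∀ p ∈ T, p.Prime ∧ (p : ℝ) ≤ X) →
    ∑ p ∈ T, 1 / ((p : ℝ) - 1) ≤ Real.log (Real.log X) + CM := by
  obtain ⟨C, hC⟩ := Pool.Agent.Erdos456.Mert.mertens_inv
  refine ⟨max C 0 + 4, by positivity, fun X hX T hT => ?_⟩
  have hN : 3 ≤ ⌊X⌋₊ := Nat.le_floor (by exact_mod_cast hX)
  have h1 : ∀ p ∈ T, 1 / ((p : ℝ) - 1) ≤ 1 / p + 2 * (1 / (p : ℝ) ^ 2) := by
    intro p hp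
    have h2 : (2:ℝ) ≤ p := by exact_mod_cast (hT p hp).1.two_le
    have h3 : 0 < (p:ℝ) - 1 := by linarith
    have h4 : 0 < (p:ℝ) := by linarith
    rw [div_le_iff₀ h3]
    have : (1 / (p:ℝ) + 2 * (1 / (p : ℝ) ^ 2)) * ((p:ℝ) - 1) = 1 + (1 / p - 2 / (p:ℝ) ^ 2) := by
      field_simp
      ring
    rw [this]
    have h5 : 2 / (p:ℝ) ^ 2 ≤ 1 / p := by
      rw [div_le_div_iff₀ (by positivity) h4]
      nlinarith
    linarith
  have h6 := sum_inv_sq_leB T (fun p hp => (hT p hp).1.one_lt.le)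
  have h7 : ∑ p ∈ T, (1:ℝ) / p ≤ ∑ p ∈ (Icc 1 ⌊X⌋₊).filter Nat.Prime, (1:ℝ) / p := by
    apply sum_le_sum_of_subset_of_nonneg
    · intro p hp
      obtain ⟨hp1, hp2⟩ := hT p hp
      rw [mem_filter, mem_Icc]
      exact ⟨⟨hp1.one_lt.le, Nat.le_floor hp2⟩, hp1⟩
    · intro p _ _
      positivity
  have h8 := (abs_le.mp (hC ⌊X⌋₊ hN)).2
  have h9 : Real.log (Real.log (⌊X⌋₊ : ℝ)) ≤ Real.log (Real.log X) := by
    have e1 : (3:ℝ) ≤ (⌊X⌋₊ : ℝ) := by exact_mod_cast hN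
    exact Real.log_le_log (Real.log_pos (by linarith))
      (Real.log_le_log (by linarith) (Nat.floor_le (by linarith)))
  have h10 := le_max_left C 0
  calc ∑ p ∈ T, 1 / ((p : ℝ) - 1) ≤ ∑ p ∈ T, (1 / (p:ℝ) + 2 * (1 / (p : ℝ) ^ 2)) := sum_le_sum h1
    _ = ∑ p ∈ T, (1:ℝ) / p + 2 * ∑ p ∈ T, (1:ℝ) / (p : ℝ) ^ 2 := by
        rw [sum_add_distrib, mul_sum]
    _ ≤ _ := by linarith

theorem not_dvd_WW (X : ℝ) (S : Finset ℕ) (ps p : ℕ) (hp : p.Prime)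
    (h : Pool.Agent.H378R2.yy X < p) : ¬ p ∣ Pool.Agent.H378R2.WW X S ps := by
  intro hd
  have h1 := ((prime_dvd_WW hp).1 hd)
  have h2 := (mem_PW.1 h1).1
  omega

open scoped Classical in
theorem htr_of (m B Z : ℕ) (C : ℝ) (hC : 0 ≤ C) : ∃ X0 : ℝ, ∀ X : ℝ, X0 ≤ X →
    ∃ (ps : ℕ) (S : Finset ℕ), GoodP Z ps ∧ GoodS X S ∧
      (ps : ℝ) ≤ Real.exp ((Real.log (Real.log X)) ^ 6) ∧
      ∀ PP₁ PP₂ : Finset ℕ, (∀ p ∈ PP₁, p.Prime ∧ Pool.Agent.H378R2.yy X < p ∧ p ≠ ps ∧ (p : ℝ) ≤ X) →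
        (∀ p ∈ PP₂, p.Prime ∧ Pool.Agent.H378R2.yy X < p ∧ p ≠ ps ∧ (p : ℝ) ≤ X) → Disjoint PP₁ PP₂ →
      ∀ (κ : Type) [Fintype κ] [DecidableEq κ], (Fintype.card κ : ℝ) ≤ (Real.log X) ^ 2 →
      ∀ bk : κ → ℤ, (∀ p ∈ PP₁, ∀ k l, k ≠ l → ¬ ((p : ℤ) ∣ -bk k - -bk l)) →
        (∀ p ∈ PP₂, ∀ k l, k ≠ l → ¬ ((p : ℤ) ∣ -bk k - -bk l)) →
        (∀ p ∈ PP₁, ∀ k, ¬ ((p : ℤ) ∣ bk k)) → (∀ p ∈ PP₂, ∀ k, ¬ ((p : ℤ) ∣ bk k)) →
      ∀ a0 : ℕ, a0.Coprime (Pool.Agent.H378R2.WW X S ps) →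
      ∀ f : Col (PP₁.card + PP₂.card) κ → ℝ,
        (∀ D, |f D| ≤ (Real.log X) ^ B * nu (fun _ => C) D) →
        (∀ D, f D ≠ 0 → (cols D).card ≤ m ∧
          ((qn PP₁ (fstc D) * qn PP₂ (sndc D) : ℕ) : ℝ) ≤ X ^ (1 / 100 : ℝ)) →
        |∑ D, f D * (nu (Fin.append (fun i => 1 - 1 / ((emb PP₁ i : ℕ) : ℝ))
            (fun i => 1 - 1 / ((emb PP₂ i : ℕ) : ℝ))) D *
          ∑ n ∈ (Icc 1 ⌊3 * X⌋₊).filter (fun n => n ≡ a0 [MOD Pool.Agent.H378R2.WW X S ps]),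
            (Phi (n / X) * ArithmeticFunction.vonMangoldt n) *
              ind D (Fin.append (colr PP₁ (fun _ k => -bk k) (n : ℤ))
                (colr PP₂ (fun _ k => -bk k) (n : ℤ)) : Col (PP₁.card + PP₂.card) κ) -
          LPhi X / (Nat.totient (Pool.Agent.H378R2.WW X S ps) : ℝ) *
            nu (Fin.append (fun i => 1 / ((emb PP₁ i : ℕ) : ℝ))
              (fun i => 1 / ((emb PP₂ i : ℕ) : ℝ))) D)| ≤
          (LPhi X / (Nat.totient (Pool.Agent.H378R2.WW X S ps) : ℝ)) / 8 := by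
  set mC : ℝ := (m : ℝ) * C with hmC
  have hmC0 : 0 ≤ mC := by positivity
  obtain ⟨C5, hC5, hcoef⟩ := coef_sum mC hmC0
  obtain ⟨CM, hCM0, hCM⟩ := sum_inv_pred
  set A : ℕ := B + 3 * m + ⌈mC⌉₊ + 1 with hA
  obtain ⟨X1, hbv⟩ := bvw A Z
  have hlog : Tendsto Real.log atTop atTop := Real.tendsto_log_atTop
  set E0 : ℝ := Real.exp (mC * CM) with hE0
  have hE0p : 0 < E0 := Real.exp_pos _
  apply eventually_atTop.mp
  filter_upwards [eventually_ge_atTop X1, eventually_ge_atTop (3:ℝ),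
    hlog.eventually_ge_atTop (2:ℝ), hlog.eventually_ge_atTop (1600 * (E0 * C5)), LPhi_ge]
    with X hX1 hX3 hL2 hLE hLP
  have hX0 : 0 < X := by linarith
  set L := Real.log X with hL
  have hL0 : 0 < L := by linarith
  have hL1 : 1 ≤ L := by linarith
  obtain ⟨ps, S, hps, hS, hpsb, hmain⟩ := hbv X hX1
  refine ⟨ps, S, hps, hS, hpsb, ?_⟩
  intro PP₁ PP₂ h₁ h₂ hd κ _ _ hκ bk hi₁ hi₂ h0₁ h0₂ a0 ha0 f hf hfD
  set W := Pool.Agent.H378R2.WW X S ps with hW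
  have hWpos : 0 < W := Pool.Agent.H378R2.LSBV.WW_pos X S ps
  have hφW : (0:ℝ) < Nat.totient W := by exact_mod_cast Nat.totient_pos.mpr hWpos
  have hp₁ : ∀ p ∈ PP₁, p.Prime := fun p hp => (h₁ p hp).1
  have hp₂ : ∀ p ∈ PP₂, p.Prime := fun p hp => (h₂ p hp).1
  have hW₁ : ∀ p ∈ PP₁, ¬ p ∣ W := fun p hp => not_dvd_WW X S ps p (hp₁ p hp) (h₁ p hp).2.1
  have hW₂ : ∀ p ∈ PP₂, ¬ p ∣ W := fun p hp => not_dvd_WW X S ps p (hp₂ p hp) (h₂ p hp).2.1
  have hcm : ∀ D : Col (PP₁.card + PP₂.card) κ, _ := fun D =>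
    class_meas X W a0 hWpos ha0 PP₁ PP₂ hp₁ hp₂ hd hW₁ hW₂ κ bk hi₁ hi₂ h0₁ h0₂ D
  choose b hb1 hb2 using hcm
  set q : Col (PP₁.card + PP₂.card) κ → ℕ := fun D => qn PP₁ (fstc D) * qn PP₂ (sndc D) with hq
  have hqpos : ∀ D, 0 < q D := by
    intro D
    simp only [hq]
    rw [q_eq]
    exact Finset.prod_pos fun i _ => (PR_prime hp₁ hp₂ i).pos
  -- the modulus is prime to `W ps`
  have hcopP : ∀ i, (PR PP₁ PP₂ i).Coprime (W * ps) := by
    intro i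
    have hi := PR_mem (PP₁ := PP₁) (PP₂ := PP₂) i
    have hpr := PR_prime hp₁ hp₂ i
    have hne : PR PP₁ PP₂ i ≠ ps ∧ ¬ PR PP₁ PP₂ i ∣ W := by
      rw [Finset.mem_union] at hi
      rcases hi with h | h
      · exact ⟨(h₁ _ h).2.2.1, hW₁ _ h⟩
      · exact ⟨(h₂ _ h).2.2.1, hW₂ _ h⟩
    apply Nat.Coprime.mul_right
    · rw [hpr.coprime_iff_not_dvd]
      exact hne.2
    · rcases hps with h | h
      · rw [h]; exact Nat.coprime_one_right _
      · rw [Nat.coprime_primes hpr h.1]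
        exact hne.1
  have hqcop : ∀ D, (q D).Coprime (W * ps) := by
    intro D
    simp only [hq]
    rw [q_eq]
    exact Nat.Coprime.prod_left fun i _ => hcopP i
  -- the constant
  set M : ℝ := L ^ B with hM
  set Sg : ℝ := ∑ p ∈ PP₁ ∪ PP₂, 1 / ((p : ℝ) - 1) with hSg
  set K : ℝ := M * ((Fintype.card κ : ℝ) + 1) ^ m * Real.exp (mC * Sg) * C5 with hK
  have hK0 : 0 ≤ K := by positivity
  have hSgle : Sg ≤ Real.log L + CM := by
    apply hCM X hX3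
    intro p hp
    rw [Finset.mem_union] at hp
    rcases hp with h | h
    · exact ⟨hp₁ p h, (h₁ p h).2.2.2⟩
    · exact ⟨hp₂ p h, (h₂ p h).2.2.2⟩
  have hexp : Real.exp (mC * Sg) ≤ E0 * L ^ ⌈mC⌉₊ := by
    calc Real.exp (mC * Sg) ≤ Real.exp (mC * CM + ⌈mC⌉₊ * Real.log L) := by
          apply Real.exp_le_exp.mpr
          have h5 : mC * Sg ≤ mC * (Real.log L + CM) := mul_le_mul_of_nonneg_left hSgle hmC0
          have h6 : mC * Real.log L ≤ (⌈mC⌉₊ : ℝ) * Real.log L :=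
            mul_le_mul_of_nonneg_right (Nat.le_ceil _) (Real.log_nonneg hL1)
          linarith
      _ = E0 * L ^ ⌈mC⌉₊ := by
          rw [Real.exp_add, Real.exp_nat_mul, Real.exp_log hL0]
  have hcard : ((Fintype.card κ : ℝ) + 1) ^ m ≤ L ^ (3 * m) := by
    rw [pow_mul]
    apply pow_le_pow_left₀ (by positivity)
    nlinarith [pow_le_pow_left₀ (by norm_num : (0:ℝ) ≤ 2) hL2 2]
  have hKle : K / L ^ A ≤ 1 / 1600 := by
    have h5 : K ≤ L ^ B * L ^ (3 * m) * (E0 * L ^ ⌈mC⌉₊) * C5 := by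
      rw [hK]
      apply mul_le_mul_of_nonneg_right _ hC5.le
      apply mul_le_mul _ hexp (Real.exp_pos _).le (by positivity)
      exact mul_le_mul_of_nonneg_left hcard (by positivity)
    have h6 : L ^ B * L ^ (3 * m) * (E0 * L ^ ⌈mC⌉₊) * C5 = (E0 * C5) * (L ^ A / L) := by
      rw [hA, pow_add, pow_add, pow_add, pow_one]
      field_simp
    rw [div_le_iff₀ (by positivity)]
    refine h5.trans ?_
    rw [h6]
    have h7 : 0 < L ^ A := by positivity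
    rw [← mul_div_assoc, div_le_iff₀ hL0]
    nlinarith
  -- Bombieri-Vinogradov
  have hbvm := hmain (Col (PP₁.card + PP₂.card) κ) f q b K hK0 (fun D hD => by
      refine ⟨hqpos D, (hfD D hD).2, ?_, hqcop D, hb1 D⟩
      simp only [hq]
      rw [q_eq]
      exact sqf_prod hp₁ hp₂ hd _) (fun d hd1 => by
      have h5 := hcoef PP₁ PP₂ hp₁ hp₂ hd κ m C M hC (by positivity) le_rfl f hf
        (fun D hD => (hfD D hD).1) d hd1
      refine le_trans (le_of_eq ?_) (h5.trans (le_of_eq ?_))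
      · apply Finset.sum_congr
        · ext D; simp [hq]
        · intro D _; rfl
      · rw [hK]; ring)
  calc _ = |∑ D, f D * ((Nat.totient (q D) : ℝ) / ((q D : ℕ) : ℝ) * EPhi X (W * q D) (b D))| := by
        congr 1
        apply Finset.sum_congr rfl
        intro D _
        rw [hb2 D]
    _ ≤ ∑ D, |f D| * |EPhi X (W * q D) (b D)| := by
        refine (Finset.abs_sum_le_sum_abs _ _).trans (Finset.sum_le_sum fun D _ => ?_)
        rw [abs_mul, abs_mul]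
        apply mul_le_mul_of_nonneg_left _ (abs_nonneg _)
        have h8 : |(Nat.totient (q D) : ℝ) / ((q D : ℕ) : ℝ)| ≤ 1 := by
          rw [abs_of_nonneg (by positivity), div_le_one (by exact_mod_cast hqpos D)]
          exact_mod_cast Nat.totient_le _
        calc _ ≤ 1 * |EPhi X (W * q D) (b D)| := mul_le_mul_of_nonneg_right h8 (abs_nonneg _)
          _ = _ := one_mul _
    _ ≤ X / (Nat.totient W : ℝ) * (K / L ^ A) := hbvm
    _ ≤ X / (Nat.totient W : ℝ) * (1 / 1600) :=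
        mul_le_mul_of_nonneg_left hKle (by positivity)
    _ = ((X / 200) / (Nat.totient W : ℝ)) / 8 := by ring
    _ ≤ _ := by
        apply div_le_div_of_nonneg_right _ (by norm_num)
        exact div_le_div_of_nonneg_right hLP hφW.le

end Pool.Agent.L5helper11.IS
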